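import Pool.Agent.R745.Jel.Geom

open MeasureTheory Metric Filter Topology Set

namespace Pool.Agent.R745.Jel

/-- From the points of `S` near `p` one can move a little in the direction `ε`. -/
def Good (S : Set ℝ) (p ε : ℝ) : Prop :=
  ∃ r > (0:ℝ), ∀ x ∈ S, |x - p| < r → ∀ s ∈ Ioo (0:ℝ) (2 * r), x + ε * s ∈ S

lemma Good.mono {S : Set ℝ} {p ε : ℝ} {r r' : ℝ}
    (h : ∀ x ∈ S, |x - p| < r → ∀ s ∈ Ioo (0:ℝ) (2 * r), x + ε * s ∈ S) (hr : r' ≤ r) :
    ∀ x ∈ S, |x - p| < r' → ∀ s ∈ Ioo (0:ℝ) (2 * r'), x + ε * s ∈ S := fun x hx hxp s hs =>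
  h x hx (hxp.trans_le hr) s ⟨hs.1, by linarith [hs.2]⟩

lemma good_right {a b p : ℝ} (hp : p < b) : Good (Ioo a b) p 1 := by
  refine ⟨(b - p) / 3, by linarith, fun x hx hxp s hs => ⟨?_, ?_⟩⟩
  · linarith [hx.1, hs.1]
  · have := (abs_lt.1 hxp).2
    linarith [hs.2]

lemma good_left {a b p : ℝ} (hp : a < p) : Good (Ioo a b) p (-1) := by
  refine ⟨(p - a) / 3, by linarith, fun x hx hxp s hs => ⟨?_, ?_⟩⟩
  · have := (abs_lt.1 hxp).1
    linarith [hs.2]
  · linarith [hx.2, hs.1]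

section
variable {ι : Type} [Finite ι]

/-- Families of intervals in `(0,A)` with disjoint closures. -/
structure Teeth (A : ℝ) (al be : ι → ℝ) : Prop where
  lt : ∀ i, al i < be i
  pos : ∀ i, 0 < al i
  le : ∀ i, be i < A
  disj : ∀ i j, i ≠ j → Disjoint (Icc (al i) (be i)) (Icc (al j) (be j))

/-- The union of the intervals. -/
def TT (al be : ι → ℝ) : Set ℝ := ⋃ i, Ioo (al i) (be i)

lemma Teeth.good {A : ℝ} (hA : 0 < A) {al be : ι → ℝ} (h : Teeth A al be) {p : ℝ} (hp0 : 0 ≤ p)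
    (hpA : p ≤ A) : ∃ ε : ℝ, (ε = 1 ∨ ε = -1) ∧ Good (Ioo 0 A) p ε ∧ Good (TT al be) p ε := by
  by_cases hc : ∃ i, p ∈ Icc (al i) (be i)
  · obtain ⟨i, hi⟩ := hc
    have hcl : IsClosed (⋃ j ∈ ({i}ᶜ : Set ι), Icc (al j) (be j)) :=
      (Set.toFinite _).isClosed_biUnion fun j _ => isClosed_Icc
    have hpn : p ∈ (⋃ j ∈ ({i}ᶜ : Set ι), Icc (al j) (be j))ᶜ := by
      simp only [mem_compl_iff, mem_iUnion, not_exists]
      intro j hj hpj
      exact (Set.disjoint_left.1 (h.disj j i hj)) hpj hi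
    obtain ⟨r1, hr1, hb⟩ := Metric.isOpen_iff.1 hcl.isOpen_compl p hpn
    have hloc : ∀ x ∈ TT al be, |x - p| < r1 → x ∈ Ioo (al i) (be i) := by
      intro x hx hxp
      obtain ⟨j, hj⟩ := mem_iUnion.1 hx
      have hx' := hb (show x ∈ ball p r1 by rw [mem_ball, Real.dist_eq]; exact hxp)
      by_cases hji : j = i
      · subst hji; exact hj
      · have hj' : x ∈ Icc (al j) (be j) := Ioo_subset_Icc_self hj
        exact absurd (mem_biUnion (show j ∈ ({i}ᶜ : Set ι) from hji) hj') hx'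
    have key : ∀ ε : ℝ, Good (Ioo (al i) (be i)) p ε → Good (TT al be) p ε := by
      rintro ε ⟨r2, hr2, h2⟩
      refine ⟨min r1 r2, lt_min hr1 hr2, fun x hx hxp s hs => ?_⟩
      have h3 := Good.mono h2 (min_le_right r1 r2) x
        (hloc x hx (hxp.trans_le (min_le_left _ _))) hxp s hs
      exact mem_iUnion.2 ⟨i, h3⟩
    by_cases hpb : p < be i
    · exact ⟨1, Or.inl rfl, good_right (hpb.trans (h.le i)), key 1 (good_right hpb)⟩
    · have hpb' : al i < p := (h.lt i).trans_le (not_lt.1 hpb)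
      exact ⟨-1, Or.inr rfl, good_left ((h.pos i).trans hpb'), key (-1) (good_left hpb')⟩
  · have hcl : IsClosed (⋃ j, Icc (al j) (be j)) := isClosed_iUnion_of_finite fun j => isClosed_Icc
    have hpn : p ∈ (⋃ j, Icc (al j) (be j))ᶜ := by
      simp only [mem_compl_iff, mem_iUnion]
      exact hc
    obtain ⟨r1, hr1, hb⟩ := Metric.isOpen_iff.1 hcl.isOpen_compl p hpn
    have key : ∀ ε : ℝ, Good (TT al be) p ε := by
      intro ε
      refine ⟨r1, hr1, fun x hx hxp s hs => ?_⟩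
      obtain ⟨j, hj⟩ := mem_iUnion.1 hx
      have hx' := hb (show x ∈ ball p r1 by rw [mem_ball, Real.dist_eq]; exact hxp)
      have hj' : x ∈ Icc (al j) (be j) := Ioo_subset_Icc_self hj
      exact absurd (mem_iUnion.2 ⟨j, hj'⟩) hx'
    by_cases hpA' : p < A
    · exact ⟨1, Or.inl rfl, good_right hpA', key 1⟩
    · exact ⟨-1, Or.inr rfl, good_left (by linarith), key (-1)⟩

/-- The comb: the cuboid `(0,H) × (0,A) × (0,A)` with the teeth
`[H,H+1) × (al i, be i) × (0,A)`. -/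
def comb (A H : ℝ) (T : Set ℝ) : Set E3 :=
  {y | 0 < y 0 ∧ y 1 ∈ Ioo 0 A ∧ y 2 ∈ Ioo 0 A ∧ (y 0 < H ∨ (y 0 < H + 1 ∧ y 1 ∈ T))}

omit [Finite ι] in
lemma isOpen_TT (al be : ι → ℝ) : IsOpen (TT al be) := isOpen_iUnion fun _ => isOpen_Ioo

lemma isOpen_comb {A H : ℝ} {T : Set ℝ} (hT : IsOpen T) : IsOpen (comb A H T) := by
  have h0 : Continuous fun y : E3 => y 0 := by fun_prop
  have h1 : Continuous fun y : E3 => y 1 := by fun_prop
  have h2 : Continuous fun y : E3 => y 2 := by fun_prop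
  exact (isOpen_lt continuous_const h0).inter ((isOpen_Ioo.preimage h1).inter
    ((isOpen_Ioo.preimage h2).inter ((isOpen_lt h0 continuous_const).union
      ((isOpen_lt h0 continuous_const).inter (hT.preimage h1)))))

lemma coord_lt (y : E3) (i : Fin 3) {κ : ℝ} (h : ‖y‖ < κ) : |y i| < κ := by
  refine lt_of_le_of_lt ?_ h
  have := PiLp.norm_apply_le y i
  simpa [Real.norm_eq_abs] using this

lemma comb_lip {A H : ℝ} (hA : 0 < A) (hH : 0 < H) {al be : ι → ℝ} (h : Teeth A al be) :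
    LipBdry (comb A H (TT al be)) := by
  intro p hp
  have hpc : p ∈ {y : E3 | 0 ≤ y 0 ∧ y 1 ∈ Icc 0 A ∧ y 2 ∈ Icc 0 A} := by
    have hcl : IsClosed {y : E3 | 0 ≤ y 0 ∧ y 1 ∈ Icc 0 A ∧ y 2 ∈ Icc 0 A} := by
      have h0 : Continuous fun y : E3 => y 0 := by fun_prop
      have h1 : Continuous fun y : E3 => y 1 := by fun_prop
      have h2 : Continuous fun y : E3 => y 2 := by fun_prop
      exact (isClosed_le continuous_const h0).inter
        ((isClosed_Icc.preimage h1).inter (isClosed_Icc.preimage h2))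
    refine closure_minimal ?_ hcl (frontier_subset_closure hp)
    rintro y ⟨h0, h1, h2, -⟩
    exact ⟨h0.le, Ioo_subset_Icc_self h1, Ioo_subset_Icc_self h2⟩
  obtain ⟨hp0, hp1, hp2⟩ := hpc
  obtain ⟨ε1, hε1, ⟨r1, hr1, g1⟩, ⟨r1', hr1', g1'⟩⟩ := h.good hA hp1.1 hp1.2
  obtain ⟨ε2, hε2, r2, hr2, g2⟩ : ∃ ε : ℝ, (ε = 1 ∨ ε = -1) ∧ Good (Ioo 0 A) (p 2) ε := by
    by_cases hpA' : p 2 < A
    · exact ⟨1, Or.inl rfl, good_right hpA'⟩
    · exact ⟨-1, Or.inr rfl, good_left (by linarith)⟩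
  -- direction of the first coordinate
  obtain ⟨ε0, hε0, r0, hr0, g0⟩ : ∃ ε : ℝ, (ε = 1 ∨ ε = -1) ∧ ∃ r > (0:ℝ), ∀ x : ℝ, 0 < x →
      |x - p 0| < r → ∀ s ∈ Ioo (0:ℝ) (2 * r), 0 < x + ε * s ∧
        (x + ε * s < H ∨ ((x < H → x + ε * s < H) ∧ (x < H + 1 → x + ε * s < H + 1))) := by
    by_cases hpH : p 0 < H
    · refine ⟨1, Or.inl rfl, (H - p 0) / 3, by linarith, fun x hx hxp s hs => ⟨?_, Or.inl ?_⟩⟩
      · linarith [hs.1]
      · have := (abs_lt.1 hxp).2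
        linarith [hs.2]
    · refine ⟨-1, Or.inr rfl, H / 3, by linarith, fun x hx hxp s hs => ⟨?_, Or.inr ⟨?_, ?_⟩⟩⟩
      · have := (abs_lt.1 hxp).1
        linarith [hs.2]
      · intro h1; linarith [hs.1]
      · intro h1; linarith [hs.1]
  set r := min (min r0 r1) (min r1' r2) with hr
  have hrpos : 0 < r := lt_min (lt_min hr0 hr1) (lt_min hr1' hr2)
  have hle0 : r ≤ r0 := (min_le_left _ _).trans (min_le_left _ _)
  have hle1 : r ≤ r1 := (min_le_left _ _).trans (min_le_right _ _)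
  have hle1' : r ≤ r1' := (min_le_right _ _).trans (min_le_left _ _)
  have hle2 : r ≤ r2 := (min_le_right _ _).trans (min_le_right _ _)
  refine ⟨r, hrpos, WithLp.toLp 2 ![ε0, ε1, ε2], 1 / 2, by norm_num, ?_⟩
  rintro x ⟨hx, hxp⟩ t ht v hv
  rw [mem_ball, dist_eq_norm] at hxp hv
  have c0 := coord_lt _ 0 hxp
  have c1 := coord_lt _ 1 hxp
  have c2 := coord_lt _ 2 hxp
  have v0 := coord_lt _ 0 hv
  have v1 := coord_lt _ 1 hv
  have v2 := coord_lt _ 2 hv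
  simp only [PiLp.sub_apply, Matrix.cons_val_zero, Matrix.cons_val_one, Matrix.cons_val] at c0 c1 c2 v0 v1 v2
  -- every displacement is `ε * s` with `0 < s < 2 r`
  have disp : ∀ (ε w : ℝ), (ε = 1 ∨ ε = -1) → |w - ε| < 1 / 2 →
      ∃ s ∈ Ioo (0:ℝ) (2 * r), t * w = ε * s := by
    intro ε w hε hw
    have hw' := abs_lt.1 hw
    refine ⟨t * (ε * w), ?_, ?_⟩
    · rcases hε with rfl | rfl
      · constructor
        · have : 0 < w := by linarith
          have := ht.1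
          positivity
        · nlinarith [ht.1, ht.2]
      · constructor
        · have : 0 < -1 * w := by linarith
          exact mul_pos ht.1 this
        · nlinarith [ht.1, ht.2]
    · rcases hε with rfl | rfl <;> ring
  obtain ⟨s0, hs0, e0⟩ := disp ε0 (v 0) hε0 v0
  obtain ⟨s1, hs1, e1⟩ := disp ε1 (v 1) hε1 v1
  obtain ⟨s2, hs2, e2⟩ := disp ε2 (v 2) hε2 v2
  obtain ⟨x0, x1, x2, x3⟩ := hx
  have k0 := g0 (x 0) x0 (c0.trans_le hle0) s0 ⟨hs0.1, by linarith [hs0.2]⟩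
  have k1 := Good.mono g1 hle1 (x 1) x1 c1 s1 hs1
  have k2 := Good.mono g2 hle2 (x 2) x2 c2 s2 hs2
  have k1' : x 1 ∈ TT al be → x 1 + ε1 * s1 ∈ TT al be := fun hT =>
    Good.mono g1' hle1' (x 1) hT c1 s1 hs1
  simp only [comb, mem_ofPred_eq, PiLp.add_apply, PiLp.smul_apply, smul_eq_mul, e0, e1, e2]
  refine ⟨k0.1, k1, k2, ?_⟩
  rcases k0.2 with hk | ⟨ha, hb⟩
  · exact Or.inl hk
  · rcases x3 with hx3 | ⟨hx3, hx4⟩
    · exact Or.inl (ha hx3)
    · exact Or.inr ⟨hb hx3, k1' hx4⟩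

/-- The basic cuboid. -/
def base (A H : ℝ) : Set E3 := bs ![Ioo 0 H, Ioo 0 A, Ioo 0 A]

/-- A tooth together with its prolongation into the cuboid. -/
def toothP (A H a b : ℝ) : Set E3 := bs ![Ioo 0 (H + 1), Ioo a b, Ioo 0 A]

/-- The free part of a tooth. -/
def tooth (A H a b : ℝ) : Set E3 := bs ![Ioo H (H + 1), Ioo a b, Ioo 0 A]

lemma mem_bs3 {s0 s1 s2 : Set ℝ} {y : E3} : y ∈ bs ![s0, s1, s2] ↔ y 0 ∈ s0 ∧ y 1 ∈ s1 ∧ y 2 ∈ s2 := by
  constructor
  · intro h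
    exact ⟨h 0, h 1, h 2⟩
  · rintro ⟨h0, h1, h2⟩ i
    fin_cases i
    · exact h0
    · exact h1
    · exact h2

omit [Finite ι] in
lemma comb_eq_union {A H : ℝ} {al be : ι → ℝ} (h : Teeth A al be) :
    comb A H (TT al be) = base A H ∪ ⋃ i, (base A H ∪ toothP A H (al i) (be i)) := by
  ext y
  simp only [comb, base, toothP, mem_ofPred_eq, mem_union, mem_bs3, mem_iUnion, TT]
  constructor
  · rintro ⟨h0, h1, h2, h3 | ⟨h3, i, hi⟩⟩
    · exact Or.inl ⟨⟨h0, h3⟩, h1, h2⟩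
    · exact Or.inr ⟨i, Or.inr ⟨⟨h0, h3⟩, hi, h2⟩⟩
  · rintro (⟨h0, h1, h2⟩ | ⟨i, ⟨h0, h1, h2⟩ | ⟨h0, h1, h2⟩⟩)
    · exact ⟨h0.1, h1, h2, Or.inl h0.2⟩
    · exact ⟨h0.1, h1, h2, Or.inl h0.2⟩
    · exact ⟨h0.1, ⟨(h.pos i).trans h1.1, h1.2.trans (h.le i)⟩, h2, Or.inr ⟨h0.2, i, h1⟩⟩

lemma comb_connected {A H : ℝ} (hA : 0 < A) (hH : 0 < H) {al be : ι → ℝ} (h : Teeth A al be) :
    IsConnected (comb A H (TT al be)) := by
  have hq : (WithLp.toLp 2 ![H / 2, A / 2, A / 2] : E3) ∈ base A H := by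
    rw [base, mem_bs3]
    simp only [Matrix.cons_val_zero, Matrix.cons_val_one, Matrix.cons_val, mem_Ioo]
    refine ⟨⟨?_, ?_⟩, ⟨?_, ?_⟩, ⟨?_, ?_⟩⟩ <;> linarith
  have hb : IsPreconnected (base A H) := (convex_bs fun i => by
    fin_cases i <;> exact convex_Ioo _ _).isPreconnected
  have ht : ∀ a b, IsPreconnected (toothP A H a b) := fun a b => (convex_bs fun i => by
    fin_cases i <;> exact convex_Ioo _ _).isPreconnected
  have hbt : ∀ i, IsPreconnected (base A H ∪ toothP A H (al i) (be i)) := by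
    intro i
    have hli := h.lt i
    have hpi := h.pos i
    have hlei := h.le i
    refine IsPreconnected.union (WithLp.toLp 2 ![H / 2, (al i + be i) / 2, A / 2] : E3) ?_ ?_ hb
      (ht _ _)
    · rw [base, mem_bs3]
      simp only [Matrix.cons_val_zero, Matrix.cons_val_one, Matrix.cons_val, mem_Ioo]
      refine ⟨⟨?_, ?_⟩, ⟨?_, ?_⟩, ⟨?_, ?_⟩⟩ <;> linarith
    · rw [toothP, mem_bs3]
      simp only [Matrix.cons_val_zero, Matrix.cons_val_one, Matrix.cons_val, mem_Ioo]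
      refine ⟨⟨?_, ?_⟩, ⟨?_, ?_⟩, ⟨?_, ?_⟩⟩ <;> linarith
  rw [comb_eq_union h]
  refine ⟨⟨_, Or.inl hq⟩, ?_⟩
  have hU : IsPreconnected (⋃ o : Option ι, (base A H ∪ (match o with
      | none => ∅
      | some i => toothP A H (al i) (be i)))) := by
    refine isPreconnected_iUnion ⟨_, mem_iInter.2 fun o => Or.inl hq⟩ fun o => ?_
    cases o with
    | none => simpa using hb
    | some i => exact hbt i
  convert hU using 1
  ext y
  simp only [mem_union, mem_iUnion]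
  constructor
  · rintro (h1 | ⟨i, h1⟩)
    · exact ⟨none, Or.inl h1⟩
    · exact ⟨some i, h1⟩
  · rintro ⟨o, h1⟩
    cases o with
    | none => exact Or.inl (by simpa using h1)
    | some i => exact Or.inr ⟨i, h1⟩

end

end Pool.Agent.R745.Jel
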