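import Pool.Agent.R745.Jel.Prof

open MeasureTheory Metric Filter Topology Set

namespace Pool.Agent.R745.Jel

variable {N M : ℕ}

/-- If there is one particle in each site, the test function does not vanish. -/
lemma psi_ne_of (s : Stat) {S : Fin N → Set E3} (hS : ∀ a b, a ≠ b → Disjoint (S a) (S b))
    {x : Conf N} {σ : Equiv.Perm (Fin N)} (hx : ∀ i, x i ∈ S (σ i)) : psi s S x ≠ 0 := by
  have h1 : psi s S (fun i => x (σ.symm i)) = 1 := psi_one s hS fun i => by
    have := hx (σ.symm i)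
    rwa [Equiv.apply_symm_apply] at this
  rw [psi_perm] at h1
  intro h
  rw [h, mul_zero] at h1
  exact zero_ne_one h1

lemma norm_psi_eq (s : Stat) {S : Fin N → Set E3} (hS : ∀ a b, a ≠ b → Disjoint (S a) (S b))
    {x : Conf N} (hx : psi s S x ≠ 0) : ‖psi s S x‖ = 1 := by
  obtain ⟨σ, hσ⟩ := psi_ne s hx
  have h1 := psi_one s hS hσ
  rw [psi_perm] at h1
  have h2 : ‖s.chi σ‖ * ‖psi s S x‖ = 1 := by rw [← norm_mul, h1, norm_one]
  rwa [norm_chi, one_mul] at h2

/-- `|ψ|²` as a sum over the assignments of particles to sites. -/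
lemma normsq_psi (s : Stat) {S : Fin N → Set E3} (hS : ∀ a b, a ≠ b → Disjoint (S a) (S b))
    (x : Conf N) :
    ‖psi s S x‖ ^ 2 = ∑ σ : Equiv.Perm (Fin N),
      ∏ i, (S (σ i)).indicator (fun _ => (1:ℝ)) (x i) := by
  by_cases hx : psi s S x = 0
  · rw [hx, norm_zero, Finset.sum_eq_zero]
    · norm_num
    · intro σ _
      by_contra h
      apply psi_ne_of s hS (x := x) (σ := σ) _ hx
      intro i
      by_contra hi
      exact h (Finset.prod_eq_zero (Finset.mem_univ i) (by simp [hi]))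
  · rw [norm_psi_eq s hS hx, one_pow]
    obtain ⟨σ, hσ⟩ := psi_ne s hx
    have hσ' : ∀ i, x i ∈ S (σ.symm i) := fun i => by
      have := hσ (σ.symm i)
      rwa [Equiv.apply_symm_apply] at this
    rw [Finset.sum_eq_single σ.symm]
    · rw [Finset.prod_eq_one]
      intro i _
      simp [hσ' i]
    · intro τ _ hτ
      obtain ⟨i, hi⟩ : ∃ i, τ i ≠ σ.symm i := by
        by_contra h
        push Not at h
        exact hτ (Equiv.ext h)
      refine Finset.prod_eq_zero (Finset.mem_univ i) ?_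
      have : x i ∉ S (τ i) := fun h => (Set.disjoint_left.1 (hS _ _ hi)) h (hσ' i)
      simp [this]
    · intro h; exact absurd (Finset.mem_univ _) h

/-- Hypotheses on the sites. -/
structure Sites (Λ : Set E3) (H : ℝ) (S : Fin M → Fin N → Set E3) (d C : ℝ) : Prop where
  openΛ : IsOpen Λ
  finΛ : volume Λ < ⊤
  lt : ∀ y ∈ Λ, y 0 < H + 1
  isOpen : ∀ k a, IsOpen (S k a)
  sub : ∀ k a, S k a ⊆ Λ
  above : ∀ k a, ∀ y ∈ S k a, H < y 0
  rest : ∀ k a, IsOpen ((Λ ∩ {y | H < y 0}) \ S k a)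
  nonempty : ∀ k a, (S k a).Nonempty
  disj : ∀ k a b, a ≠ b → Disjoint (S k a) (S k b)
  cross : ∀ k l, k ≠ l → ∃ a, ∀ b, Disjoint (S k a) (S l b)
  pos : 0 < d
  Cnn : 0 ≤ C
  dist : ∀ k a b, a ≠ b → ∀ y ∈ S k a, ∀ z ∈ S k b, d ≤ ‖y - z‖
  kin : ∀ k a, ∫ y in S k a, dpf H y ^ 2 ≤ C * ∫ y in S k a, pf H y ^ 2

/-- Linear combination of the locally constant factors. -/
noncomputable def FF (s : Stat) (S : Fin M → Fin N → Set E3) (c : Fin M → ℂ) (x : Conf N) : ℂ :=
  ∑ k, c k * psi s (S k) x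

section
variable {Λ : Set E3} {H d C : ℝ} {S : Fin M → Fin N → Set E3}

lemma Sites.psi_cross (h : Sites Λ H S d C) (s : Stat) {k l : Fin M} (hkl : k ≠ l) {x : Conf N}
    (hx : psi s (S k) x ≠ 0) : psi s (S l) x = 0 := by
  by_contra hl
  obtain ⟨σ, hσ⟩ := psi_ne s hx
  obtain ⟨τ, hτ⟩ := psi_ne s hl
  obtain ⟨a, ha⟩ := h.cross k l hkl
  have h1 := hτ (τ.symm (σ a))
  rw [Equiv.apply_symm_apply] at h1
  exact (Set.disjoint_left.1 (ha _)) (hσ a) h1

lemma Sites.FF_eq (h : Sites Λ H S d C) (s : Stat) (c : Fin M → ℂ) {k : Fin M} {x : Conf N}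
    (hx : psi s (S k) x ≠ 0) : FF s S c x = c k * psi s (S k) x := by
  unfold FF
  rw [Finset.sum_eq_single k]
  · intro l _ hl
    rw [h.psi_cross s (Ne.symm hl) hx, mul_zero]
  · intro h; exact absurd (Finset.mem_univ _) h

lemma Sites.normsq_FF (h : Sites Λ H S d C) (s : Stat) (c : Fin M → ℂ) (x : Conf N) :
    ‖FF s S c x‖ ^ 2 = ∑ k, ‖c k‖ ^ 2 * ‖psi s (S k) x‖ ^ 2 := by
  by_cases hx : ∃ k, psi s (S k) x ≠ 0
  · obtain ⟨k, hk⟩ := hx
    rw [h.FF_eq s c hk, norm_mul, mul_pow, Finset.sum_eq_single k]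
    · intro l _ hl
      rw [h.psi_cross s (Ne.symm hl) hk]; simp
    · intro h; exact absurd (Finset.mem_univ _) h
  · push Not at hx
    simp [FF, hx]

lemma exists_of_FF_ne {s : Stat} {c : Fin M → ℂ} {x : Conf N} (hx : FF s S c x ≠ 0) :
    ∃ k, ∃ σ : Equiv.Perm (Fin N), ∀ i, x i ∈ S k (σ i) := by
  obtain ⟨k, -, hk⟩ := Finset.exists_ne_zero_of_sum_ne_zero hx
  obtain ⟨σ, hσ⟩ := psi_ne s (right_ne_zero_of_mul hk)
  refine ⟨k, σ.symm, fun i => ?_⟩
  have := hσ (σ.symm i)
  rwa [Equiv.apply_symm_apply] at this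

lemma Sites.norm_FF_le (h : Sites Λ H S d C) (s : Stat) (c : Fin M → ℂ) (x : Conf N) :
    ‖FF s S c x‖ ≤ ∑ k, ‖c k‖ := by
  unfold FF
  refine (norm_sum_le _ _).trans (Finset.sum_le_sum fun k _ => ?_)
  rw [norm_mul]
  exact mul_le_of_le_one_right (norm_nonneg _) (norm_psi_le s (h.disj k) x)

lemma Sites.measurable_FF (h : Sites Λ H S d C) (s : Stat) (c : Fin M → ℂ) :
    Measurable (FF s S c) :=
  Finset.measurable_sum _ fun k _ =>
    (measurable_psi s fun a => (h.isOpen k a).measurableSet).const_mul _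

/-- Bounded functions. -/
lemma Sites.bdd (h : Sites Λ H S d C) (s : Stat) (c : Fin M → ℂ) {Q : Conf N → ℝ}
    (hQ : ∀ x : Conf N, 0 ≤ Q x) (hQ' : ∀ x : Conf N, (∀ l, x l 0 < H + 1) → Q x ≤ 2 ^ N)
    (x : Conf N) : ‖FF s S c x * ((Q x : ℝ) : ℂ)‖ ≤ (∑ k, ‖c k‖) * 2 ^ N := by
  by_cases hx : FF s S c x = 0
  · rw [hx, zero_mul, norm_zero]
    exact mul_nonneg (Finset.sum_nonneg fun _ _ => norm_nonneg _) (by positivity)
  · obtain ⟨k, σ, hσ⟩ := exists_of_FF_ne hx
    rw [norm_mul, Complex.norm_real, Real.norm_of_nonneg (hQ x)]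
    exact mul_le_mul (h.norm_FF_le s c x)
      (hQ' x fun l => h.lt _ (h.sub k (σ l) (hσ l))) (hQ x)
      (Finset.sum_nonneg fun _ _ => norm_nonneg _)

lemma mem_box_of {x : Conf N} (hx : ∀ i, x i ∈ Λ) : x ∈ box Λ N := fun i _ => hx i

lemma Sites.notMem_box (h : Sites Λ H S d C) {s : Stat} {c : Fin M → ℂ} {x : Conf N}
    (hx : x ∉ box Λ N) : FF s S c x = 0 := by
  by_contra hne
  obtain ⟨k, σ, hσ⟩ := exists_of_FF_ne hne
  exact hx (mem_box_of fun i => h.sub k _ (hσ i))

/-- Integral of `|F|² ∏ q_l²`. -/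
lemma Sites.integral_prod (h : Sites Λ H S d C) (s : Stat) (c : Fin M → ℂ) (q : Fin N → E3 → ℝ)
    (hq : ∀ l k a, IntegrableOn (fun y => q l y ^ 2) (S k a)) :
    ∫ x in box Λ N, ‖FF s S c x‖ ^ 2 * (∏ l, q l (x l)) ^ 2
      = ∑ k, ‖c k‖ ^ 2 * ∑ σ : Equiv.Perm (Fin N), ∏ l, ∫ y in S k (σ l), q l y ^ 2 := by
  rw [setIntegral_eq_integral_of_forall_compl_eq_zero
    (fun x hx => by rw [h.notMem_box hx]; simp)]
  have h1 : ∀ x : Conf N, ‖FF s S c x‖ ^ 2 * (∏ l, q l (x l)) ^ 2
      = ∑ k, ‖c k‖ ^ 2 * ∑ σ : Equiv.Perm (Fin N),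
        ∏ l, (S k (σ l)).indicator (fun y => q l y ^ 2) (x l) := by
    intro x
    rw [h.normsq_FF, Finset.sum_mul]
    refine Finset.sum_congr rfl fun k _ => ?_
    rw [normsq_psi s (h.disj k), mul_assoc, Finset.sum_mul]
    congr 1
    refine Finset.sum_congr rfl fun σ _ => ?_
    rw [← Finset.prod_pow, ← Finset.prod_mul_distrib]
    refine Finset.prod_congr rfl fun l _ => ?_
    by_cases hl : x l ∈ S k (σ l) <;> simp [hl]
  simp only [h1]
  have hint : ∀ k (σ : Equiv.Perm (Fin N)), Integrable fun x : Conf N =>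
      ∏ l, (S k (σ l)).indicator (fun y => q l y ^ 2) (x l) := fun k σ =>
    Integrable.fintype_prod (f := fun l => (S k (σ l)).indicator (fun y => q l y ^ 2)) fun l =>
      (integrable_indicator_iff (h.isOpen k _).measurableSet).2 (hq l k _)
  rw [integral_finsetSum _ fun k _ => (integrable_finsetSum _ fun σ _ => hint k σ).const_mul _]
  refine Finset.sum_congr rfl fun k _ => ?_
  rw [integral_const_mul, integral_finsetSum _ fun σ _ => hint k σ]
  congr 1
  refine Finset.sum_congr rfl fun σ _ => ?_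
  rw [integral_fintype_prod_volume_eq_prod
    (f := fun l => (S k (σ l)).indicator (fun y => q l y ^ 2))]
  exact Finset.prod_congr rfl fun l _ => integral_indicator (h.isOpen k _).measurableSet

lemma Sites.int_pf (h : Sites Λ H S d C) (k : Fin M) (a : Fin N) :
    IntegrableOn (fun y => pf H y ^ 2) (S k a) := by
  refine Measure.integrableOn_of_bounded (M := 4)
    ((measure_mono (h.sub k a)).trans_lt h.finΛ).ne
    ((measurable_pf H).pow_const 2).aestronglyMeasurable
    ((ae_restrict_iff' (h.isOpen k a).measurableSet).2 (Eventually.of_forall fun y hy => ?_))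
  have h1 := pf_le (h.lt y (h.sub k a hy))
  have h0 := pf_nonneg H y
  rw [Real.norm_of_nonneg (by positivity)]
  nlinarith

lemma Sites.int_dpf (h : Sites Λ H S d C) (k : Fin M) (a : Fin N) :
    IntegrableOn (fun y => dpf H y ^ 2) (S k a) := by
  refine Measure.integrableOn_of_bounded (M := 4)
    ((measure_mono (h.sub k a)).trans_lt h.finΛ).ne
    ((measurable_dpf H).pow_const 2).aestronglyMeasurable
    ((ae_restrict_iff' (h.isOpen k a).measurableSet).2 (Eventually.of_forall fun y hy => ?_))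
  have h1 := dpf_le (h.lt y (h.sub k a hy))
  have h0 := dpf_nonneg H y
  rw [Real.norm_of_nonneg (by positivity)]
  nlinarith

/-- The kinetic energy bound for one coordinate. -/
lemma Sites.kin_le (h : Sites Λ H S d C) (s : Stat) (c : Fin M → ℂ) (i : Fin N) :
    ∫ x in box Λ N, ‖FF s S c x‖ ^ 2 * DP H i x ^ 2
      ≤ C * ∫ x in box Λ N, ‖FF s S c x‖ ^ 2 * PP H x ^ 2 := by
  have e1 := h.integral_prod s c (fun l y => if l = i then dpf H y else pf H y) (by
    intro l k a
    by_cases hl : l = i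
    · simpa [hl] using h.int_dpf k a
    · simpa [hl] using h.int_pf k a)
  have e2 := h.integral_prod s c (fun _ y => pf H y) (fun l k a => h.int_pf k a)
  simp only [DP, PP]
  rw [e1, e2, Finset.mul_sum]
  refine Finset.sum_le_sum fun k _ => ?_
  rw [mul_left_comm]
  refine mul_le_mul_of_nonneg_left
    ((Finset.sum_le_sum fun σ _ => ?_).trans_eq (Finset.mul_sum _ _ _).symm) (by positivity)
  calc ∏ l, ∫ y in S k (σ l), (if l = i then dpf H y else pf H y) ^ 2
      ≤ ∏ l, ((if l = i then C else 1) * ∫ y in S k (σ l), pf H y ^ 2) := by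
        refine Finset.prod_le_prod (fun l _ => integral_nonneg fun y => by positivity)
          fun l _ => ?_
        by_cases hl : l = i
        · simpa [hl] using h.kin k (σ i)
        · simp [hl]
    _ = C * ∏ l, ∫ y in S k (σ l), pf H y ^ 2 := by
        rw [Finset.prod_mul_distrib, Finset.prod_ite_eq']
        simp

/-- Test function. -/
noncomputable def tf (s : Stat) (S : Fin M → Fin N → Set E3) (H : ℝ) (k : Fin M) (x : Conf N) :
    ℂ := psi s (S k) x * ((PP H x : ℝ) : ℂ)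

/-- gradient of the linear combination -/
noncomputable def gf (s : Stat) (S : Fin M → Fin N → Set E3) (H : ℝ) (c : Fin M → ℂ)
    (i : Fin N) (α : Fin 3) (x : Conf N) : ℂ :=
  if α = 0 then FF s S c x * ((DP H i x : ℝ) : ℂ) else 0

lemma comb_eq (s : Stat) (S : Fin M → Fin N → Set E3) (H : ℝ) (c : Fin M → ℂ) (x : Conf N) :
    ∑ k, c k * tf s S H k x = FF s S c x * ((PP H x : ℝ) : ℂ) := by
  simp only [tf, FF, Finset.sum_mul, mul_assoc]

lemma Sites.hasFDerivAt (h : Sites Λ H S d C) (s : Stat) (c : Fin M → ℂ) {x : Conf N}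
    (hx : x ∈ box Λ N) :
    HasFDerivAt (fun x => FF s S c x * ((PP H x : ℝ) : ℂ))
      (FF s S c x • (Complex.ofRealCLM.comp (LP H x))) x := by
  have hP : HasFDerivAt (fun x : Conf N => ((PP H x : ℝ) : ℂ))
      (Complex.ofRealCLM.comp (LP H x)) x :=
    Complex.ofRealCLM.hasFDerivAt.comp x (hasFDerivAt_PP H x)
  by_cases hxi : ∃ i, x i 0 ≤ H
  · obtain ⟨i, hi⟩ := hxi
    have hF : FF s S c x = 0 := by
      by_contra hne
      obtain ⟨k, σ, hσ⟩ := exists_of_FF_ne hne
      exact absurd (h.above k _ _ (hσ i)) (not_lt.2 hi)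
    have hz : FF s S c x • (Complex.ofRealCLM.comp (LP H x)) = 0 := by
      ext v; simp [hF]
    rw [LP_zero hi, ContinuousLinearMap.comp_zero] at hP
    rw [hz]
    have hP' := hP.isLittleO
    rw [hasFDerivAt_iff_isLittleO]
    simp only [PP_zero hi, Complex.ofReal_zero, mul_zero, sub_zero,
      zero_apply] at hP' ⊢
    refine Asymptotics.IsBigO.trans_isLittleO ?_ hP'
    refine Asymptotics.IsBigO.of_bound (∑ k, ‖c k‖) (Eventually.of_forall fun y => ?_)
    rw [norm_mul]
    gcongr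
    exact h.norm_FF_le s c y
  · push Not at hxi
    have hxi' : x ∈ box (Λ ∩ {y | H < y 0}) N := fun i hi => ⟨hx i hi, hxi i⟩
    have hloc : ∀ᶠ y in 𝓝 x, FF s S c y = FF s S c x := by
      have : ∀ k, ∀ᶠ y in 𝓝 x, psi s (S k) y = psi s (S k) x := fun k =>
        psi_locconst s (h.isOpen k) (h.rest k) hxi'
      filter_upwards [Filter.eventually_all.2 this] with y hy
      simp [FF, hy]
    have h2 : HasFDerivAt (fun y : Conf N => FF s S c x * ((PP H y : ℝ) : ℂ))
        (FF s S c x • (Complex.ofRealCLM.comp (LP H x))) x := hP.const_mul _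
    refine h2.congr_of_eventuallyEq ?_
    filter_upwards [hloc] with y hy
    rw [hy]

lemma measurableSet_box (hΛ : IsOpen Λ) : MeasurableSet (box Λ N) :=
  MeasurableSet.univ_pi fun _ => hΛ.measurableSet

lemma volume_box_lt (hf : volume Λ < ⊤) : volume (box Λ N) < ⊤ := by
  rw [box, volume_pi_pi]
  exact ENNReal.prod_lt_top fun _ _ => hf

lemma Sites.isH1 (h : Sites Λ H S d C) (s : Stat) (c : Fin M → ℂ) :
    IsH1 Λ N (fun x => ∑ k, c k * tf s S H k x) (gf s S H c) := by
  have hfin : IsFiniteMeasure (volume.restrict (box Λ N)) :=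
    ⟨by rw [Measure.restrict_apply_univ]; exact volume_box_lt h.finΛ⟩
  simp only [comb_eq]
  have hb1 := h.bdd s c (Q := PP H) (PP_nonneg H) (fun x hx => PP_le hx)
  have hm1 : Measurable fun x : Conf N => FF s S c x * ((PP H x : ℝ) : ℂ) :=
    (h.measurable_FF s c).mul (Complex.measurable_ofReal.comp (measurable_PP H))
  have hb2 : ∀ i α x, ‖gf s S H c i α x‖ ≤ (∑ k, ‖c k‖) * 2 ^ N := by
    intro i α x
    unfold gf
    split_ifs with hα
    · exact h.bdd s c (Q := DP H i) (DP_nonneg H i) (fun x hx => DP_le hx) x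
    · rw [norm_zero]
      exact mul_nonneg (Finset.sum_nonneg fun _ _ => norm_nonneg _) (by positivity)
  have hm2 : ∀ i α, Measurable (gf s S H c i α) := by
    intro i α
    unfold gf
    by_cases hα : α = 0
    · simp only [hα, if_true]
      exact (h.measurable_FF s c).mul (Complex.measurable_ofReal.comp (measurable_DP H i))
    · simp only [hα, if_false]
      exact measurable_const
  refine ⟨?_, fun i α => ?_, ?_⟩
  · exact MemLp.of_bound hm1.aestronglyMeasurable _ (Eventually.of_forall hb1)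
  · exact MemLp.of_bound (hm2 i α).aestronglyMeasurable _ (Eventually.of_forall (hb2 i α))
  · intro i α φ hφ hc hs
    refine weak_of_deriv (v := dir i α) (fun x hx => (h.hasFDerivAt s c hx).differentiableAt)
      (fun x hx => ?_) hm1 (hm2 i α) hb1 (hb2 i α) hφ hc hs
    rw [(h.hasFDerivAt s c hx).fderiv]
    simp only [smul_apply, ContinuousLinearMap.comp_apply,
      Complex.ofRealCLM_apply, LP_dir, gf, smul_eq_mul]
    split_ifs <;> simp

lemma Sites.pot_supp (h : Sites Λ H S d C) {ρ : ℝ} (hρ : 0 < ρ) {s : Stat} {c : Fin M → ℂ}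
    {x : Conf N} (hx : FF s S c x ≠ 0) :
    pot ρ Λ N x ≤ N ^ 2 / d + ρ ^ 2 / 2 * ((K0 + (volume Λ).toReal) * (volume Λ).toReal) := by
  obtain ⟨k, σ, hσ⟩ := exists_of_FF_ne hx
  refine pot_le hρ h.finΛ h.pos fun i j hij => ?_
  exact h.dist k (σ i) (σ j) (fun he => hij (σ.injective he)) _ (hσ i) _ (hσ j)

/-- The energy bound. -/
noncomputable def Ebd (ρ : ℝ) (Λ : Set E3) (N : ℕ) (d C : ℝ) : ℝ :=
  N * C / 2 + (N ^ 2 / d + ρ ^ 2 / 2 * ((K0 + (volume Λ).toReal) * (volume Λ).toReal))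

lemma Sites.int_pot (h : Sites Λ H S d C) {ρ : ℝ} (hρ : 0 < ρ) (s : Stat) (c : Fin M → ℂ) :
    IntegrableOn (fun x : Conf N => pot ρ Λ N x * ‖FF s S c x * ((PP H x : ℝ) : ℂ)‖ ^ 2)
      (box Λ N) := by
  set E := N ^ 2 / d + ρ ^ 2 / 2 * ((K0 + (volume Λ).toReal) * (volume Λ).toReal) with hE
  set E' := ρ * (N * (K0 + (volume Λ).toReal)) with hE'
  have hE'0 : 0 ≤ E' := by
    have := K0_nonneg
    positivity
  have hE0 : 0 ≤ E := by
    have := K0_nonneg
    have := h.pos
    positivity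
  have hb1 := h.bdd s c (Q := PP H) (PP_nonneg H) (fun x hx => PP_le hx)
  have hm1 : Measurable fun x : Conf N => FF s S c x * ((PP H x : ℝ) : ℂ) :=
    (h.measurable_FF s c).mul (Complex.measurable_ofReal.comp (measurable_PP H))
  refine Measure.integrableOn_of_bounded (M := (E + E') * ((∑ k, ‖c k‖) * 2 ^ N) ^ 2)
    (volume_box_lt h.finΛ).ne
    ((measurable_pot ρ Λ N).mul (hm1.norm.pow_const 2)).aestronglyMeasurable
    (Eventually.of_forall fun x => ?_)
  by_cases hx : FF s S c x = 0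
  · rw [hx]
    simp only [zero_mul, norm_zero]
    norm_num
    positivity
  · rw [norm_mul, norm_pow, norm_norm]
    have h1 : ‖pot ρ Λ N x‖ ≤ E + E' := by
      rw [Real.norm_eq_abs, abs_le]
      constructor
      · have := le_pot hρ h.finΛ x
        linarith
      · have := h.pot_supp hρ hx
        linarith
    exact mul_le_mul h1 (pow_le_pow_left₀ (norm_nonneg _) (hb1 x) 2) (by positivity)
      (by positivity)

lemma Sites.int_nsq (h : Sites Λ H S d C) (s : Stat) (c : Fin M → ℂ) :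
    IntegrableOn (fun x : Conf N => ‖FF s S c x * ((PP H x : ℝ) : ℂ)‖ ^ 2) (box Λ N) := by
  have hb1 := h.bdd s c (Q := PP H) (PP_nonneg H) (fun x hx => PP_le hx)
  have hm1 : Measurable fun x : Conf N => FF s S c x * ((PP H x : ℝ) : ℂ) :=
    (h.measurable_FF s c).mul (Complex.measurable_ofReal.comp (measurable_PP H))
  refine Measure.integrableOn_of_bounded (M := ((∑ k, ‖c k‖) * 2 ^ N) ^ 2)
    (volume_box_lt h.finΛ).ne (hm1.norm.pow_const 2).aestronglyMeasurable
    (Eventually.of_forall fun x => ?_)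
  rw [norm_pow, norm_norm]
  exact pow_le_pow_left₀ (norm_nonneg _) (hb1 x) 2

theorem Sites.adm (h : Sites Λ H S d C) {ρ : ℝ} (hρ : 0 < ρ) (s : Stat) :
    Adm s ρ Λ N M (Ebd ρ Λ N d C) := by
  refine ⟨tf s S H, fun c hc => ⟨gf s S H c, ⟨h.isH1 s c, ?_, ?_⟩, ?_, ?_⟩⟩
  · -- integrability of the potential energy
    simp only [comb_eq]
    exact h.int_pot hρ s c
  · -- symmetry
    intro σ
    refine Eventually.of_forall fun x => ?_
    simp only [comb_eq]
    have h1 : FF s S c (fun i => x (σ i)) = s.chi σ * FF s S c x := by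
      simp only [FF, psi_perm, Finset.mul_sum]
      refine Finset.sum_congr rfl fun k _ => by ring
    have h2 : PP H (fun i => x (σ i)) = PP H x := by
      unfold PP
      exact Equiv.prod_comp σ fun i => pf H (x i)
    rw [h1, h2, mul_assoc]
  · -- positivity of the norm
    simp only [nsq, comb_eq]
    obtain ⟨k, hk⟩ : ∃ k, c k ≠ 0 := by
      by_contra hne
      push Not at hne
      exact hc (funext hne)
    rw [setIntegral_pos_iff_support_of_nonneg_ae (Eventually.of_forall fun x => by positivity)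
      (h.int_nsq s c)]
    have hA : IsOpen (Set.univ.pi (S k)) := isOpen_set_pi finite_univ fun a _ => h.isOpen k a
    have hne : (Set.univ.pi (S k)).Nonempty := Set.univ_pi_nonempty_iff.2 (h.nonempty k)
    refine (hA.measure_pos volume hne).trans_le (measure_mono fun x hx => ?_)
    have hx' : ∀ i, x i ∈ S k i := fun i => hx i (mem_univ i)
    refine ⟨?_, mem_box_of fun i => h.sub k i (hx' i)⟩
    have h1 := psi_one s (h.disj k) hx'
    have h2 : psi s (S k) x ≠ 0 := by rw [h1]; exact one_ne_zero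
    have h3 : 0 < PP H x := Finset.prod_pos fun l _ => pf_pos (h.above k l _ (hx' l))
    simp only [Function.mem_support, h.FF_eq s c h2, h1, mul_one]
    have : c k * ((PP H x : ℝ) : ℂ) ≠ 0 := mul_ne_zero hk (by exact_mod_cast h3.ne')
    positivity
  · -- energy
    simp only [qform, nsq, comb_eq]
    have hn : ∀ x : Conf N, ‖FF s S c x * ((PP H x : ℝ) : ℂ)‖ ^ 2
        = ‖FF s S c x‖ ^ 2 * PP H x ^ 2 := fun x => by
      rw [norm_mul, Complex.norm_real, mul_pow, Real.norm_eq_abs, sq_abs]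
    have hkin : ∀ i, ∑ α, ∫ x in box Λ N, ‖gf s S H c i α x‖ ^ 2
        = ∫ x in box Λ N, ‖FF s S c x‖ ^ 2 * DP H i x ^ 2 := by
      intro i
      rw [Fin.sum_univ_three]
      simp only [gf, if_true, Fin.reduceEq, if_false, norm_zero]
      norm_num
      refine integral_congr_ae (Eventually.of_forall fun x => ?_)
      simp only [mul_pow, sq_abs]
    simp only [hkin, hn]
    set I := ∫ x in box Λ N, ‖FF s S c x‖ ^ 2 * PP H x ^ 2 with hI
    have h1 : ∑ i : Fin N, ∫ x in box Λ N, ‖FF s S c x‖ ^ 2 * DP H i x ^ 2 ≤ N * (C * I) := by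
      calc ∑ i : Fin N, ∫ x in box Λ N, ‖FF s S c x‖ ^ 2 * DP H i x ^ 2
          ≤ ∑ i : Fin N, C * I := Finset.sum_le_sum fun i _ => h.kin_le s c i
        _ = _ := by simp
    set E := N ^ 2 / d + ρ ^ 2 / 2 * ((K0 + (volume Λ).toReal) * (volume Λ).toReal) with hE
    have h2 : ∫ x in box Λ N, pot ρ Λ N x * (‖FF s S c x‖ ^ 2 * PP H x ^ 2) ≤ E * I := by
      rw [hI, ← integral_const_mul]
      have i1 := h.int_pot hρ s c
      have i2 := h.int_nsq s c
      simp only [hn] at i1 i2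
      refine integral_mono i1 (i2.const_mul E) fun x => ?_
      by_cases hx : FF s S c x = 0
      · simp [hx]
      · exact mul_le_mul_of_nonneg_right (h.pot_supp hρ hx) (by positivity)
    unfold Ebd
    rw [← hE]
    nlinarith

end

end Pool.Agent.R745.Jel
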