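import Pool.Agent.R745.Jel.Comb
import Pool.Agent.R745.Jel.Form

open MeasureTheory Metric Filter Topology Set

namespace Pool.Agent.R745.Jel

lemma comb_eq_disj {A H : ℝ} (hH : 0 < H) {T : Set ℝ} (hTA : T ⊆ Ioo 0 A) :
    comb A H T = base A H ∪ bs ![Ico H (H + 1), T, Ioo 0 A] := by
  ext y
  simp only [comb, base, mem_ofPred_eq, mem_union, mem_bs3]
  constructor
  · rintro ⟨h0, h1, h2, h3 | ⟨h3, h4⟩⟩
    · exact Or.inl ⟨⟨h0, h3⟩, h1, h2⟩
    · by_cases hy : y 0 < H
      · exact Or.inl ⟨⟨h0, hy⟩, h1, h2⟩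
      · exact Or.inr ⟨⟨not_lt.1 hy, h3⟩, h4, h2⟩
  · rintro (⟨h0, h1, h2⟩ | ⟨h0, h1, h2⟩)
    · exact ⟨h0.1, h1, h2, Or.inl h0.2⟩
    · exact ⟨hH.trans_le h0.1, hTA h1, h2, Or.inr ⟨h0.2, h1⟩⟩

lemma volume_comb {A H : ℝ} (hH : 0 < H) {T : Set ℝ} (hT : MeasurableSet T)
    (hTA : T ⊆ Ioo 0 A) :
    volume (comb A H T) = ENNReal.ofReal H * ENNReal.ofReal A * ENNReal.ofReal A
      + volume T * ENNReal.ofReal A := by
  rw [comb_eq_disj hH hTA, measure_union]
  · rw [base, volume_bs, volume_bs, Fin.prod_univ_three, Fin.prod_univ_three]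
    · simp
    · intro i; fin_cases i
      · exact measurableSet_Ico
      · exact hT
      · exact measurableSet_Ioo
    · intro i; fin_cases i <;> exact measurableSet_Ioo
  · rw [Set.disjoint_left]
    intro y hy hy'
    rw [base, mem_bs3] at hy
    rw [mem_bs3] at hy'
    exact absurd hy.1.2 (not_lt.2 hy'.1.1)
  · refine measurableSet_bs fun i => ?_
    fin_cases i
    · exact measurableSet_Ico
    · exact hT
    · exact measurableSet_Ioo

lemma volume_T_lt {A : ℝ} {T : Set ℝ} (hTA : T ⊆ Ioo 0 A) : volume T < ⊤ :=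
  (measure_mono hTA).trans_lt (by simp)

lemma volume_comb_lt {A H : ℝ} (hH : 0 < H) {T : Set ℝ} (hT : MeasurableSet T)
    (hTA : T ⊆ Ioo 0 A) : volume (comb A H T) < ⊤ := by
  rw [volume_comb hH hT hTA]
  have := volume_T_lt hTA
  refine ENNReal.add_lt_top.2 ⟨?_, ENNReal.mul_lt_top this ENNReal.ofReal_lt_top⟩
  exact ENNReal.mul_lt_top (ENNReal.mul_lt_top ENNReal.ofReal_lt_top ENNReal.ofReal_lt_top)
    ENNReal.ofReal_lt_top

lemma volume_comb_toReal {A H : ℝ} (hA : 0 < A) (hH : 0 < H) {T : Set ℝ} (hT : MeasurableSet T)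
    (hTA : T ⊆ Ioo 0 A) :
    (volume (comb A H T)).toReal = H * A * A + (volume T).toReal * A := by
  rw [volume_comb hH hT hTA, ENNReal.toReal_add]
  · simp [ENNReal.toReal_mul, hA.le, hH.le]
  · exact (ENNReal.mul_lt_top (ENNReal.mul_lt_top ENNReal.ofReal_lt_top ENNReal.ofReal_lt_top)
      ENNReal.ofReal_lt_top).ne
  · exact (ENNReal.mul_lt_top (volume_T_lt hTA) ENNReal.ofReal_lt_top).ne

/-- The shrunken cuboid. -/
def core (A H b : ℝ) : Set E3 := bs ![Ioo b (H - b), Ioo b (A - b), Ioo b (A - b)]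

lemma ball_subset {A H b : ℝ} {T : Set ℝ} {x : E3} (hx : x ∈ core A H b) :
    ball x b ⊆ comb A H T := by
  intro z hz
  rw [mem_ball, dist_eq_norm] at hz
  rw [core, mem_bs3] at hx
  obtain ⟨h0, h1, h2⟩ := hx
  have c0 := abs_lt.1 (coord_lt _ 0 hz)
  have c1 := abs_lt.1 (coord_lt _ 1 hz)
  have c2 := abs_lt.1 (coord_lt _ 2 hz)
  simp only [PiLp.sub_apply] at c0 c1 c2
  refine ⟨by linarith [h0.1], ⟨by linarith [h1.1], by linarith [h1.2]⟩,
    ⟨by linarith [h2.1], by linarith [h2.2]⟩, Or.inl (by linarith [h0.2])⟩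

lemma core_subset {A H b : ℝ} (hb : 0 < b) {T : Set ℝ} : core A H b ⊆ comb A H T := fun _ hx =>
  ball_subset hx (mem_ball_self hb)

/-- The points close to the boundary lie outside the shrunken cuboid. -/
lemma thin_subset {A H h : ℝ} (hh : 0 < h) {T : Set ℝ} (hT : IsOpen T) :
    {x | x ∈ comb A H T ∧ ∃ z ∈ frontier (comb A H T), dist x z ≤ h}
      ⊆ comb A H T \ core A H (2 * h) := by
  rintro x ⟨hx, z, hz, hxz⟩
  refine ⟨hx, fun hc => ?_⟩
  have hz' : z ∈ comb A H T := ball_subset hc (by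
    rw [mem_ball, dist_comm]; linarith)
  rw [(isOpen_comb hT).frontier_eq] at hz
  exact hz.2 hz'

lemma volume_core {A H b : ℝ} (h1 : 0 ≤ H - 2 * b) (h2 : 0 ≤ A - 2 * b) :
    (volume (core A H b)).toReal = (H - 2 * b) * (A - 2 * b) * (A - 2 * b) := by
  rw [core, volume_bs, Fin.prod_univ_three]
  · simp only [Matrix.cons_val_zero, Matrix.cons_val_one, Matrix.cons_val, Real.volume_Ioo]
    rw [show H - b - b = H - 2 * b by ring, show A - b - b = A - 2 * b by ring]
    simp [ENNReal.toReal_mul, h1, h2]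
  · intro i; fin_cases i <;> exact measurableSet_Ioo

lemma thin_volume {A H h : ℝ} (hh : 0 < h) (hH : 0 < H) {T : Set ℝ} (hT : IsOpen T)
    (hTA : T ⊆ Ioo 0 A) (h1 : 0 ≤ H - 4 * h) (h2 : 0 ≤ A - 4 * h) :
    (volume {x | x ∈ comb A H T ∧ ∃ z ∈ frontier (comb A H T), dist x z ≤ h}).toReal
      ≤ (volume (comb A H T)).toReal - (H - 4 * h) * (A - 4 * h) * (A - 4 * h) := by
  have hfin := volume_comb_lt hH hT.measurableSet hTA
  have hm : MeasurableSet (core A H (2 * h)) := measurableSet_bs fun i => by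
    fin_cases i <;> exact measurableSet_Ioo
  have hsub : core A H (2 * h) ⊆ comb A H T := core_subset (by linarith)
  have e1 : volume (comb A H T \ core A H (2 * h))
      = volume (comb A H T) - volume (core A H (2 * h)) :=
    measure_sdiff hsub hm.nullMeasurableSet ((measure_mono hsub).trans_lt hfin).ne
  have e2 := volume_core (A := A) (H := H) (b := 2 * h) (by linarith) (by linarith)
  rw [show H - 2 * (2 * h) = H - 4 * h by ring, show A - 2 * (2 * h) = A - 4 * h by ring] at e2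
  calc (volume {x | x ∈ comb A H T ∧ ∃ z ∈ frontier (comb A H T), dist x z ≤ h}).toReal
      ≤ (volume (comb A H T \ core A H (2 * h))).toReal :=
        ENNReal.toReal_mono ((measure_mono sdiff_subset).trans_lt hfin).ne
          (measure_mono (thin_subset hh hT))
    _ = (volume (comb A H T)).toReal - (H - 4 * h) * (A - 4 * h) * (A - 4 * h) := by
        rw [e1, ENNReal.toReal_sub_of_le (measure_mono hsub) hfin.ne, e2]

lemma comb_subset_ball {A H : ℝ} (hA : 0 < A) (hHA : H ≤ A) {T : Set ℝ} :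
    comb A H T ⊆ ball 0 (2 * (A + 1)) := by
  rintro y ⟨h0, h1, h2, h3⟩
  rw [mem_ball, dist_zero_right, EuclideanSpace.norm_eq, Real.sqrt_lt' (by linarith),
    Fin.sum_univ_three]
  simp only [Real.norm_eq_abs, sq_abs]
  have h0' : y 0 < A + 1 := by
    rcases h3 with h | h
    · linarith
    · linarith [h.1]
  nlinarith [h1.1, h1.2, h2.1, h2.2]

/-! ### one-dimensional integrals -/

lemma int_one (H : ℝ) : ∫ t in Ioo H (H + 1), (2 * max (t - H) 0) ^ 2 = 4 / 3 := by
  rw [← integral_Ioc_eq_integral_Ioo, ← intervalIntegral.integral_of_le (by linarith)]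
  have h1 : ∫ t in H..(H + 1), (2 * max (t - H) 0) ^ 2 = ∫ t in H..(H + 1), (fun u => 4 * u ^ 2) (t - H) := by
    refine intervalIntegral.integral_congr fun t ht => ?_
    rw [uIcc_of_le (by linarith)] at ht
    simp only
    rw [max_eq_left (by linarith [ht.1])]
    ring
  rw [h1, intervalIntegral.integral_comp_sub_right (fun u => 4 * u ^ 2)]
  rw [sub_self, add_sub_cancel_left, intervalIntegral.integral_const_mul, integral_pow]
  norm_num

lemma int_two (H : ℝ) : ∫ t in Ioo H (H + 1), pr (t - H) ^ 2 = 1 / 5 := by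
  rw [← integral_Ioc_eq_integral_Ioo, ← intervalIntegral.integral_of_le (by linarith)]
  have h1 : ∫ t in H..(H + 1), pr (t - H) ^ 2 = ∫ t in H..(H + 1), (fun u => u ^ 4) (t - H) := by
    refine intervalIntegral.integral_congr fun t ht => ?_
    rw [uIcc_of_le (by linarith)] at ht
    simp only [pr]
    rw [max_eq_left (by linarith [ht.1])]
    ring
  rw [h1, intervalIntegral.integral_comp_sub_right (fun u => u ^ 4)]
  rw [sub_self, add_sub_cancel_left, integral_pow]
  norm_num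

lemma tooth_kin (A H a b : ℝ) :
    ∫ y in tooth A H a b, dpf H y ^ 2 ≤ (20 / 3 : ℝ) * ∫ y in tooth A H a b, pf H y ^ 2 := by
  have hm : ∀ i, MeasurableSet ((![Ioo H (H + 1), Ioo a b, Ioo 0 A] : Fin 3 → Set ℝ) i) := by
    intro i; fin_cases i <;> exact measurableSet_Ioo
  have e1 := integral_bs hm (fun t => (2 * max (t - H) 0) ^ 2)
  have e2 := integral_bs hm (fun t => pr (t - H) ^ 2)
  simp only [Matrix.cons_val_zero, Matrix.cons_val_one, Matrix.cons_val] at e1 e2
  rw [int_one] at e1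
  rw [int_two] at e2
  simp only [tooth, dpf, pf]
  rw [e1, e2]
  apply le_of_eq
  ring

section
variable {ι : Type} [Finite ι]

lemma isOpen_tooth (A H a b : ℝ) : IsOpen (tooth A H a b) := isOpen_bs fun i => by
  fin_cases i <;> exact isOpen_Ioo

lemma Teeth.TT_subset {A : ℝ} {al be : ι → ℝ} (h : Teeth A al be) : TT al be ⊆ Ioo 0 A := by
  intro t ht
  obtain ⟨i, hi⟩ := mem_iUnion.1 ht
  exact ⟨(h.pos i).trans hi.1, hi.2.trans (h.le i)⟩

lemma Teeth.tooth_disj {A H : ℝ} {al be : ι → ℝ} (h : Teeth A al be) {i j : ι} (hij : i ≠ j) :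
    Disjoint (tooth A H (al i) (be i)) (tooth A H (al j) (be j)) := by
  rw [Set.disjoint_left]
  intro y hy hy'
  rw [tooth, mem_bs3] at hy hy'
  exact (Set.disjoint_left.1 (h.disj i j hij)) (Ioo_subset_Icc_self hy.2.1)
    (Ioo_subset_Icc_self hy'.2.1)

lemma Teeth.rest {A H : ℝ} (hH : 0 < H) {al be : ι → ℝ} (h : Teeth A al be) (i : ι) :
    IsOpen ((comb A H (TT al be) ∩ {y | H < y 0}) \ tooth A H (al i) (be i)) := by
  have : (comb A H (TT al be) ∩ {y | H < y 0}) \ tooth A H (al i) (be i)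
      = ⋃ j, ⋃ (_ : j ≠ i), tooth A H (al j) (be j) := by
    ext y
    simp only [Set.mem_sdiff, mem_inter_iff, mem_ofPred_eq, mem_iUnion]
    constructor
    · rintro ⟨⟨⟨h0, h1, h2, h3⟩, h4⟩, h5⟩
      rcases h3 with h3 | ⟨h3, h6⟩
      · exact absurd h3 (not_lt.2 h4.le)
      · obtain ⟨j, hj⟩ := mem_iUnion.1 h6
        refine ⟨j, ?_, ?_⟩
        · rintro rfl
          exact h5 (by rw [tooth, mem_bs3]; exact ⟨⟨h4, h3⟩, hj, h2⟩)
        · rw [tooth, mem_bs3]; exact ⟨⟨h4, h3⟩, hj, h2⟩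
    · rintro ⟨j, hj, hy⟩
      have hy' := hy
      rw [tooth, mem_bs3] at hy'
      obtain ⟨h0, h1, h2⟩ := hy'
      refine ⟨⟨⟨hH.trans h0.1, ⟨(h.pos j).trans h1.1, h1.2.trans (h.le j)⟩, h2,
        Or.inr ⟨h0.2, mem_iUnion.2 ⟨j, h1⟩⟩⟩, h0.1⟩, ?_⟩
      exact fun hi => (Set.disjoint_left.1 (h.tooth_disj (H := H) hj)) hy hi
  rw [this]
  exact isOpen_iUnion fun j => isOpen_iUnion fun _ => isOpen_tooth _ _ _ _

/-- The sites of the comb. -/
lemma Teeth.sites {A H : ℝ} (hA : 0 < A) (hH : 0 < H) {al be : ι → ℝ} (h : Teeth A al be)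
    {M N : ℕ} (idx : Fin M → Fin N → ι) (hinj : ∀ k, Function.Injective (idx k))
    (hcross : ∀ k l, k ≠ l → ∃ a, ∀ b, idx k a ≠ idx l b) {d : ℝ} (hd : 0 < d)
    (hgap : ∀ k a b, a ≠ b → ∀ y ∈ Ioo (al (idx k a)) (be (idx k a)),
      ∀ z ∈ Ioo (al (idx k b)) (be (idx k b)), d ≤ |y - z|) :
    Sites (comb A H (TT al be)) H
      (fun k a => tooth A H (al (idx k a)) (be (idx k a))) d (20 / 3) where
  openΛ := isOpen_comb (isOpen_TT al be)
  finΛ := volume_comb_lt hH (isOpen_TT al be).measurableSet h.TT_subset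
  lt := by
    rintro y ⟨h0, h1, h2, h3⟩
    rcases h3 with h | h
    · linarith
    · exact h.1
  isOpen := fun k a => isOpen_tooth _ _ _ _
  sub := by
    intro k a y hy
    rw [tooth, mem_bs3] at hy
    obtain ⟨h0, h1, h2⟩ := hy
    exact ⟨hH.trans h0.1, ⟨(h.pos _).trans h1.1, h1.2.trans (h.le _)⟩, h2,
      Or.inr ⟨h0.2, mem_iUnion.2 ⟨_, h1⟩⟩⟩
  above := by
    intro k a y hy
    rw [tooth, mem_bs3] at hy
    exact hy.1.1
  rest := fun k a => h.rest hH _
  nonempty := by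
    intro k a
    have h1 := h.lt (idx k a)
    refine ⟨WithLp.toLp 2 ![H + 1 / 2, (al (idx k a) + be (idx k a)) / 2, A / 2], ?_⟩
    rw [tooth, mem_bs3]
    simp only [Matrix.cons_val_zero, Matrix.cons_val_one, Matrix.cons_val, mem_Ioo]
    refine ⟨⟨?_, ?_⟩, ⟨?_, ?_⟩, ⟨?_, ?_⟩⟩ <;> linarith
  disj := fun k a b hab => h.tooth_disj fun he => hab (hinj k he)
  cross := by
    intro k l hkl
    obtain ⟨a, ha⟩ := hcross k l hkl
    exact ⟨a, fun b => h.tooth_disj (ha b)⟩
  pos := hd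
  Cnn := by norm_num
  dist := by
    intro k a b hab y hy z hz
    rw [tooth, mem_bs3] at hy hz
    have h1 := hgap k a b hab _ hy.2.1 _ hz.2.1
    refine h1.trans ?_
    have := PiLp.norm_apply_le (y - z) 1
    simpa [Real.norm_eq_abs] using this
  kin := fun k a => tooth_kin _ _ _ _

end

end Pool.Agent.R745.Jel
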