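import Mathlib

/-!
# Quantum jellium with Neumann boundary conditions: definitions (problem MP_c8ec9a_mp)
-/

open MeasureTheory Metric Filter Topology Set

namespace Pool.Agent.R745.Jel

/-- Physical space `ℝ³` with the Euclidean norm. -/
abbrev E3 : Type := EuclideanSpace ℝ (Fin 3)

/-- Configurations of `N` particles. -/
abbrev Conf (N : ℕ) : Type := Fin N → E3

/-- `Λ^N` as a subset of the configuration space. -/
def box (Λ : Set E3) (N : ℕ) : Set (Conf N) := Set.univ.pi fun _ => Λ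

/-- `φ(x) = ∫_Λ |x-y|⁻¹ dy`. -/
noncomputable def phi (Λ : Set E3) (x : E3) : ℝ := ∫ y in Λ, ‖x - y‖⁻¹

/-- The potential energy
`U(X) = ∑_{i<j} |x_i-x_j|⁻¹ - ρ ∑_i φ(x_i) + ½ ρ² ∫_Λ φ`. -/
noncomputable def pot (ρ : ℝ) (Λ : Set E3) (N : ℕ) (x : Conf N) : ℝ :=
  (∑ i, ∑ j ∈ Finset.Ioi i, ‖x i - x j‖⁻¹) - ρ * ∑ i, phi Λ (x i)
    + ρ ^ 2 / 2 * ∫ y in Λ, phi Λ y

/-- The two statistics. -/
inductive Stat
  | bose
  | fermi

/-- The character of the symmetric group belonging to the statistics: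
trivial for bosons, the sign for fermions. -/
def Stat.chi (s : Stat) {N : ℕ} (σ : Equiv.Perm (Fin N)) : ℂ :=
  match s with
  | .bose => 1
  | .fermi => ((Equiv.Perm.sign σ : ℤˣ) : ℤ)

/-- The unit vector of the coordinate `α` of particle `i`. -/
noncomputable def dir {N : ℕ} (i : Fin N) (α : Fin 3) : Conf N :=
  Pi.single i (EuclideanSpace.single α (1 : ℝ))

/-- `ψ ∈ H¹(Λ^N)` with weak gradient `G` (`G i α` is the weak derivative of `ψ` in the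
coordinate `α` of particle `i`): `ψ` and all `G i α` are in `L²(Λ^N)` and
`∫ (∂_{i,α} φ) ψ = - ∫ φ G_{i,α}` for all `φ ∈ C_c^∞(Λ^N)`. -/
structure IsH1 (Λ : Set E3) (N : ℕ) (ψ : Conf N → ℂ) (G : Fin N → Fin 3 → Conf N → ℂ) :
    Prop where
  memLp : MemLp ψ 2 (volume.restrict (box Λ N))
  memLp_grad : ∀ i α, MemLp (G i α) 2 (volume.restrict (box Λ N))
  weak : ∀ (i : Fin N) (α : Fin 3) (φ : Conf N → ℝ), ContDiff ℝ (⊤ : ℕ∞) φ → HasCompactSupport φ →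
    tsupport φ ⊆ box Λ N →
      ∫ x in box Λ N, ((fderiv ℝ φ x (dir i α) : ℝ) : ℂ) * ψ x
        = - ∫ x in box Λ N, ((φ x : ℝ) : ℂ) * G i α x

/-- `ψ` (with weak gradient `G`) belongs to the form domain of the Neumann Hamiltonian with
statistics `s`: `ψ ∈ H¹(Λ^N)`, `U |ψ|²` is integrable and `ψ` has the symmetry `s`. -/
structure IsForm (s : Stat) (ρ : ℝ) (Λ : Set E3) (N : ℕ) (ψ : Conf N → ℂ)
    (G : Fin N → Fin 3 → Conf N → ℂ) : Prop where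
  h1 : IsH1 Λ N ψ G
  int_pot : IntegrableOn (fun x => pot ρ Λ N x * ‖ψ x‖ ^ 2) (box Λ N)
  symm : ∀ σ : Equiv.Perm (Fin N), ∀ᵐ x ∂(volume.restrict (box Λ N)),
    ψ (fun i => x (σ i)) = s.chi σ * ψ x

/-- `‖ψ‖²_{L²(Λ^N)}`. -/
noncomputable def nsq (Λ : Set E3) (N : ℕ) (ψ : Conf N → ℂ) : ℝ := ∫ x in box Λ N, ‖ψ x‖ ^ 2

/-- The quadratic form `½ ∑_{i,α} ∫ |∂_{i,α} ψ|² + ∫ U |ψ|²` of the Hamiltonian. -/
noncomputable def qform (ρ : ℝ) (Λ : Set E3) (N : ℕ) (ψ : Conf N → ℂ)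
    (G : Fin N → Fin 3 → Conf N → ℂ) : ℝ :=
  1 / 2 * (∑ i, ∑ α, ∫ x in box Λ N, ‖G i α x‖ ^ 2) + ∫ x in box Λ N, pot ρ Λ N x * ‖ψ x‖ ^ 2

/-- `Adm s ρ Λ N n E`: there is an `n`-dimensional subspace (the span of `f 0, …, f (n-1)`) of
the form domain of the Neumann Hamiltonian `H^N_Λ` on which `⟨ψ, H ψ⟩ ≤ E ‖ψ‖²`. Thus
`μ_n = inf {E | Adm s ρ Λ N n E}` is the `n`-th min-max value of `H^N_Λ`. -/
def Adm (s : Stat) (ρ : ℝ) (Λ : Set E3) (N n : ℕ) (E : ℝ) : Prop :=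
  ∃ f : Fin n → Conf N → ℂ, ∀ c : Fin n → ℂ, c ≠ 0 →
    ∃ G : Fin N → Fin 3 → Conf N → ℂ,
      IsForm s ρ Λ N (fun x => ∑ k, c k * f k x) G ∧
      0 < nsq Λ N (fun x => ∑ k, c k * f k x) ∧
      qform ρ Λ N (fun x => ∑ k, c k * f k x) G ≤ E * nsq Λ N (fun x => ∑ k, c k * f k x)

/-- `Tr e^{-β H^N_Λ} = ∑_{n ≥ 1} e^{-β μ_n}` with the min-max values `μ_n`
(note `e^{-β μ_n} = sup {e^{-β E} | Adm n E}`). -/
noncomputable def partitionFn (β : ℝ) (s : Stat) (ρ : ℝ) (Λ : Set E3) (N : ℕ) : ENNReal :=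
  ∑' n : ℕ, ⨆ (E : ℝ) (_ : Adm s ρ Λ N (n + 1) E), ENNReal.ofReal (Real.exp (-(β * E)))

/-- `g^N(Λ) = |Λ|⁻¹ ln Tr e^{-β H^N_Λ}` with `N` particles, as an extended real. -/
noncomputable def gN (β : ℝ) (s : Stat) (ρ : ℝ) (Λ : Set E3) (N : ℕ) : EReal :=
  (((volume Λ).toReal⁻¹ : ℝ) : EReal) * ENNReal.log (partitionFn β s ρ Λ N)

/-- Lipschitz boundary, in the form of the local uniform cone property: near every boundary point
`p` there are a direction `e` and an aperture `κ > 0` such that from every point of `Λ` near `p`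
one can move a little inside `Λ` along every vector of the cone generated by `ball e κ`. (For
bounded open sets this is equivalent to being locally the region above a Lipschitz graph.) -/
def LipBdry (Λ : Set E3) : Prop :=
  ∀ p ∈ frontier Λ, ∃ r > (0:ℝ), ∃ e : E3, ∃ κ > (0:ℝ), ∀ x ∈ Λ ∩ ball p r, ∀ t ∈ Ioo (0:ℝ) r,
    ∀ v ∈ ball e κ, x + t • v ∈ Λ

/-- Regular sequences of domains, `j = 1, 2, …`: bounded open sets with Lipschitz boundary and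
`ρ |Λ_j| = j`, such that for every `h > 0` the volume of the points of `Λ_j` within distance `h`
of `∂Λ_j` is `o(|Λ_j|)`, and for some `δ > 0` each `Λ_j` lies in a ball `B_j` with
`|Λ_j| ≥ δ |B_j|`. -/
structure Regular (ρ : ℝ) (Λ : ℕ → Set E3) : Prop where
  isOpen : ∀ j, 1 ≤ j → IsOpen (Λ j)
  bounded : ∀ j, 1 ≤ j → Bornology.IsBounded (Λ j)
  lip : ∀ j, 1 ≤ j → LipBdry (Λ j)
  neutral : ∀ j, 1 ≤ j → ρ * (volume (Λ j)).toReal = j
  thin : ∀ h : ℝ, 0 < h → Tendsto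
    (fun j => (volume {x | x ∈ Λ j ∧ ∃ z ∈ frontier (Λ j), dist x z ≤ h}).toReal /
      (volume (Λ j)).toReal) atTop (𝓝 0)
  round : ∃ δ : ℝ, 0 < δ ∧ ∀ j, 1 ≤ j → ∃ (c : E3) (R : ℝ), Λ j ⊆ ball c R ∧
    δ * (volume (ball c R)).toReal ≤ (volume (Λ j)).toReal

end Pool.Agent.R745.Jel
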