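import Pool.Agent.R745.Jel.Defs

open MeasureTheory Metric Filter Topology Set

namespace Pool.Agent.R745.Jel

/-- Product sets in `ℝ³`. -/
def bs (s : Fin 3 → Set ℝ) : Set E3 := {y | ∀ i, y i ∈ s i}

lemma bs_eq (s : Fin 3 → Set ℝ) :
    bs s = (WithLp.ofLp : E3 → (Fin 3 → ℝ)) ⁻¹' (Set.univ.pi s) := by
  ext y; simp [bs]

lemma measurableSet_bs {s : Fin 3 → Set ℝ} (hs : ∀ i, MeasurableSet (s i)) :
    MeasurableSet (bs s) := by
  rw [bs_eq]
  exact (PiLp.volume_preserving_ofLp (Fin 3)).measurable (MeasurableSet.univ_pi hs)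

lemma volume_bs {s : Fin 3 → Set ℝ} (hs : ∀ i, MeasurableSet (s i)) :
    volume (bs s) = ∏ i, volume (s i) := by
  rw [bs_eq, (PiLp.volume_preserving_ofLp (Fin 3)).measure_preimage
    (MeasurableSet.univ_pi hs).nullMeasurableSet, volume_pi_pi]

lemma isOpen_bs {s : Fin 3 → Set ℝ} (hs : ∀ i, IsOpen (s i)) : IsOpen (bs s) := by
  have : bs s = ⋂ i, (fun y : E3 => y i) ⁻¹' (s i) := by ext y; simp [bs]
  rw [this]
  exact isOpen_iInter_of_finite fun i => (hs i).preimage (by fun_prop)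

lemma convex_bs {s : Fin 3 → Set ℝ} (hs : ∀ i, Convex ℝ (s i)) : Convex ℝ (bs s) := by
  intro x hx y hy a b ha hb hab i
  exact hs i (hx i) (hy i) ha hb hab

/-- Fubini for functions of the first coordinate. -/
lemma integral_bs {s : Fin 3 → Set ℝ} (hs : ∀ i, MeasurableSet (s i)) (g : ℝ → ℝ) :
    ∫ y in bs s, g (y 0) = (∫ t in s 0, g t) * (volume (s 1)).toReal * (volume (s 2)).toReal := by
  rw [← integral_indicator (measurableSet_bs hs)]
  set h : Fin 3 → ℝ → ℝ := ![(s 0).indicator g, (s 1).indicator 1, (s 2).indicator 1] with hh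
  have h1 : ∀ y : E3, (bs s).indicator (fun y => g (y 0)) y = ∏ i, h i (WithLp.ofLp y i) := by
    intro y
    rw [Fin.prod_univ_three]
    simp only [hh, Matrix.cons_val_zero, Matrix.cons_val_one, Matrix.cons_val]
    by_cases hy : y ∈ bs s
    · simp [hy, hy 0, hy 1, hy 2]
    · rw [indicator_of_notMem hy]
      have : ¬ (y 0 ∈ s 0 ∧ y 1 ∈ s 1 ∧ y 2 ∈ s 2) := by
        intro h
        apply hy
        intro i
        fin_cases i
        · exact h.1
        · exact h.2.1
        · exact h.2.2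
      by_cases h0 : y 0 ∈ s 0
      · by_cases h1 : y 1 ∈ s 1
        · have h2 : y 2 ∉ s 2 := fun h2 => this ⟨h0, h1, h2⟩
          simp [h2]
        · simp [h1]
      · simp [h0]
  simp only [h1]
  have h2 := (PiLp.volume_preserving_ofLp (Fin 3)).integral_comp
    (MeasurableEquiv.toLp 2 (Fin 3 → ℝ)).symm.measurableEmbedding
    (fun z : Fin 3 → ℝ => ∏ i, h i (z i))
  rw [h2, integral_fintype_prod_volume_eq_prod, Fin.prod_univ_three]
  simp only [hh, Matrix.cons_val_zero, Matrix.cons_val_one, Matrix.cons_val]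
  rw [integral_indicator (hs 0), integral_indicator_one (hs 1), integral_indicator_one (hs 2)]
  rfl

end Pool.Agent.R745.Jel
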