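import Pool.Agent.R745.Jel.Comb2

open MeasureTheory Metric Filter Topology Set

namespace Pool.Agent.R745.Jel

/-- Left end points of the teeth. -/
noncomputable def alF (n M : ℕ) (W : ℝ) : Fin n ⊕ Fin M → ℝ
  | .inl a => (4 * ((a : ℕ) : ℝ) + 1) * (W / (8 * (n + 1)))
  | .inr k => W / 2 + (4 * ((k : ℕ) : ℝ) + 1) * (W / (8 * M))

/-- Right end points of the teeth. -/
noncomputable def beF (n M : ℕ) (W : ℝ) : Fin n ⊕ Fin M → ℝ
  | .inl a => (4 * ((a : ℕ) : ℝ) + 2) * (W / (8 * (n + 1)))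
  | .inr k => W / 2 + (4 * ((k : ℕ) : ℝ) + 2) * (W / (8 * M))

section
variable {n M : ℕ} {W : ℝ}

lemma dpos (hW : 0 < W) : 0 < W / (8 * ((n:ℝ) + 1)) := by positivity

lemma dpos' (hW : 0 < W) (k : Fin M) : 0 < W / (8 * (M:ℝ)) := by
  have : 0 < M := k.pos
  positivity

lemma half_eq : W / 2 = 4 * ((n:ℝ) + 1) * (W / (8 * ((n:ℝ) + 1))) := by
  have : (n:ℝ) + 1 ≠ 0 := by positivity
  field_simp
  ring

lemma half_eq' (k : Fin M) : W / 2 = 4 * (M:ℝ) * (W / (8 * (M:ℝ))) := by
  have : (M:ℝ) ≠ 0 := by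
    have : 0 < M := k.pos
    positivity
  field_simp
  ring

lemma gap_ll (hW : 0 < W) {a b : Fin n} (hab : (a : ℕ) < b) :
    beF n M W (.inl a) + W / (8 * ((n:ℝ) + 1)) ≤ alF n M W (.inl b) := by
  have h := dpos (n := n) hW
  simp only [alF, beF]
  have h1 : ((a : ℕ) : ℝ) + 1 ≤ ((b : ℕ) : ℝ) := by exact_mod_cast hab
  nlinarith

lemma gap_lr (hW : 0 < W) (a : Fin n) (k : Fin M) :
    beF n M W (.inl a) + W / (8 * ((n:ℝ) + 1)) ≤ alF n M W (.inr k) := by
  have h := dpos (n := n) hW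
  have h' := dpos' hW k
  simp only [alF, beF]
  have h1 : ((a : ℕ) : ℝ) + 1 ≤ (n : ℝ) := by exact_mod_cast a.isLt
  have h2 := half_eq (n := n) (W := W)
  have h3 : (0:ℝ) ≤ (4 * ((k : ℕ) : ℝ) + 1) * (W / (8 * M)) := by positivity
  nlinarith

lemma gap_rr (hW : 0 < W) {k l : Fin M} (hkl : (k : ℕ) < l) :
    beF n M W (.inr k) < alF n M W (.inr l) := by
  have h' := dpos' hW k
  simp only [alF, beF]
  have h1 : ((k : ℕ) : ℝ) + 1 ≤ ((l : ℕ) : ℝ) := by exact_mod_cast hkl
  nlinarith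

lemma al_lt_be (hW : 0 < W) (i : Fin n ⊕ Fin M) : alF n M W i < beF n M W i := by
  cases i with
  | inl a =>
    have h := dpos (n := n) hW
    simp only [alF, beF]; nlinarith
  | inr k =>
    have h := dpos' hW k
    simp only [alF, beF]; nlinarith

lemma sep (hW : 0 < W) {i j : Fin n ⊕ Fin M} (hij : i ≠ j) :
    beF n M W i < alF n M W j ∨ beF n M W j < alF n M W i := by
  have hd := dpos (n := n) hW
  cases i with
  | inl a =>
    cases j with
    | inl b =>
      rcases lt_trichotomy (a : ℕ) b with h | h | h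
      · left; have := gap_ll (M := M) hW h; linarith
      · exact absurd (by rw [Fin.ext h]) hij
      · right; have := gap_ll (M := M) hW h; linarith
    | inr k => left; have := gap_lr (n := n) hW a k; linarith
  | inr k =>
    cases j with
    | inl b => right; have := gap_lr (n := n) hW b k; linarith
    | inr l =>
      rcases lt_trichotomy (k : ℕ) l with h | h | h
      · left; exact gap_rr hW h
      · exact absurd (by rw [Fin.ext h]) hij
      · right; exact gap_rr hW h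

lemma be_lt (hW : 0 < W) (i : Fin n ⊕ Fin M) : beF n M W i < W := by
  cases i with
  | inl a =>
    have h := dpos (n := n) hW
    simp only [beF]
    have h1 : ((a : ℕ) : ℝ) + 1 ≤ (n : ℝ) := by exact_mod_cast a.isLt
    have h2 := half_eq (n := n) (W := W)
    nlinarith
  | inr k =>
    have h := dpos' hW k
    simp only [beF]
    have h1 : ((k : ℕ) : ℝ) + 1 ≤ (M : ℝ) := by exact_mod_cast k.isLt
    have h2 := half_eq' (W := W) k
    nlinarith

lemma al_pos (hW : 0 < W) (i : Fin n ⊕ Fin M) : 0 < alF n M W i := by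
  cases i with
  | inl a =>
    have h := dpos (n := n) hW
    simp only [alF]; positivity
  | inr k =>
    have h := dpos' hW k
    simp only [alF]; positivity

lemma teeth (hW : 0 < W) {A : ℝ} (hWA : W ≤ A) : Teeth A (alF n M W) (beF n M W) where
  lt := al_lt_be hW
  pos := al_pos hW
  le := fun i => (be_lt hW i).trans_le hWA
  disj := by
    intro i j hij
    rw [Set.disjoint_left]
    intro t ht ht'
    rcases sep hW hij with h | h
    · linarith [ht.2, ht'.1]
    · linarith [ht.1, ht'.2]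

/-- The sites used by the `k`-th test function. -/
def idx (n M : ℕ) (k : Fin M) : Fin (n + 1) → Fin n ⊕ Fin M :=
  Fin.snoc (α := fun _ => Fin n ⊕ Fin M) (fun a => Sum.inl a) (Sum.inr k)

@[simp] lemma idx_last (k : Fin M) : idx n M k (Fin.last n) = Sum.inr k := by simp [idx]

@[simp] lemma idx_cast (k : Fin M) (a : Fin n) : idx n M k a.castSucc = Sum.inl a := by simp [idx]

lemma idx_inj (k : Fin M) : Function.Injective (idx n M k) := by
  intro a b
  refine Fin.lastCases ?_ (fun a => ?_) a <;> refine Fin.lastCases ?_ (fun b => ?_) b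
  · simp
  · simp
  · simp
  · simp

lemma idx_cross (k l : Fin M) (hkl : k ≠ l) : ∃ a, ∀ b, idx n M k a ≠ idx n M l b := by
  refine ⟨Fin.last n, fun b => ?_⟩
  refine Fin.lastCases ?_ (fun b => ?_) b
  · simpa using hkl
  · simp

lemma idx_gap (hW : 0 < W) (k : Fin M) {a b : Fin (n + 1)} (hab : a ≠ b) {y z : ℝ}
    (hy : y ∈ Ioo (alF n M W (idx n M k a)) (beF n M W (idx n M k a)))
    (hz : z ∈ Ioo (alF n M W (idx n M k b)) (beF n M W (idx n M k b))) :
    W / (8 * ((n:ℝ) + 1)) ≤ |y - z| := by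
  revert hab hy hz
  refine Fin.lastCases ?_ (fun a => ?_) a <;> refine Fin.lastCases ?_ (fun b => ?_) b
  · intro h; exact absurd rfl h
  · intro _ hy hz
    rw [idx_last] at hy
    rw [idx_cast] at hz
    have := gap_lr (n := n) hW b k
    rw [abs_sub_comm]
    refine le_trans ?_ (neg_le_abs _)
    linarith [hy.1, hz.2]
  · intro _ hy hz
    rw [idx_last] at hz
    rw [idx_cast] at hy
    have := gap_lr (n := n) hW a k
    refine le_trans ?_ (neg_le_abs _)
    linarith [hy.2, hz.1]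
  · intro hab hy hz
    rw [idx_cast] at hy hz
    rcases lt_trichotomy (a : ℕ) b with h | h | h
    · have := gap_ll (M := M) hW h
      refine le_trans ?_ (neg_le_abs _)
      linarith [hy.2, hz.1]
    · exact absurd (by rw [Fin.ext h]) hab
    · have := gap_ll (M := M) hW h
      refine le_trans ?_ (le_abs_self _)
      linarith [hy.1, hz.2]

end

/-- Fewer sites. -/
lemma Sites.comp {N M m : ℕ} {Λ : Set E3} {H : ℝ} {S : Fin M → Fin N → Set E3} {d C : ℝ}
    (h : Sites Λ H S d C) (g : Fin m → Fin M) (hg : Function.Injective g) :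
    Sites Λ H (fun k => S (g k)) d C where
  openΛ := h.openΛ
  finΛ := h.finΛ
  lt := h.lt
  isOpen := fun _ => h.isOpen _
  sub := fun _ => h.sub _
  above := fun _ => h.above _
  rest := fun _ => h.rest _
  nonempty := fun _ => h.nonempty _
  disj := fun _ => h.disj _
  cross := fun _ _ hkl => h.cross _ _ fun he => hkl (hg he)
  pos := h.pos
  Cnn := h.Cnn
  dist := fun _ => h.dist _
  kin := fun _ => h.kin _

/-! ### The domains -/

/-- Side length of the cuboid: `A³ = N / ρ`, `N = n + 1`. -/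
noncomputable def side (ρ : ℝ) (n : ℕ) : ℝ := (((n:ℝ) + 1) / ρ) ^ ((1:ℝ) / 3)

/-- Width of the region of the teeth. -/
noncomputable def wid (ρ : ℝ) (n : ℕ) : ℝ := min (side ρ n) (side ρ n ^ 2) / 2

/-- The union of the intervals of the teeth. -/
noncomputable def tset (ρ : ℝ) (n M : ℕ) : Set ℝ :=
  TT (alF n M (wid ρ n)) (beF n M (wid ρ n))

/-- Height of the cuboid. -/
noncomputable def hei (ρ : ℝ) (n M : ℕ) : ℝ :=
  side ρ n - (volume (tset ρ n M)).toReal / side ρ n

/-- The domain. -/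
noncomputable def dom (ρ : ℝ) (n M : ℕ) : Set E3 := comb (side ρ n) (hei ρ n M) (tset ρ n M)

section
variable {ρ : ℝ} (hρ : 0 < ρ) (n M : ℕ)
include hρ

lemma side_pos : 0 < side ρ n := Real.rpow_pos_of_pos (by positivity) _

lemma side_cube : side ρ n ^ 3 = ((n:ℝ) + 1) / ρ := by
  rw [side, ← Real.rpow_natCast, ← Real.rpow_mul (by positivity)]
  norm_num

lemma wid_pos : 0 < wid ρ n := by
  have := side_pos hρ n
  unfold wid
  have : 0 < min (side ρ n) (side ρ n ^ 2) := lt_min this (by positivity)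
  positivity

omit hρ in
lemma wid_le : wid ρ n ≤ side ρ n / 2 := by
  unfold wid
  have := min_le_left (side ρ n) (side ρ n ^ 2)
  linarith

omit hρ in
lemma wid_le' : wid ρ n ≤ side ρ n ^ 2 / 2 := by
  unfold wid
  have := min_le_right (side ρ n) (side ρ n ^ 2)
  linarith

lemma teethD : Teeth (side ρ n) (alF n M (wid ρ n)) (beF n M (wid ρ n)) :=
  teeth (wid_pos hρ n) (by have := wid_le (ρ := ρ) n; have := side_pos hρ n; linarith)

lemma vol_tset_le : (volume (tset ρ n M)).toReal ≤ wid ρ n := by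
  have h := (teeth (n := n) (M := M) (wid_pos hρ n) le_rfl).TT_subset
  have h1 : volume (tset ρ n M) ≤ ENNReal.ofReal (wid ρ n) := by
    refine (measure_mono h).trans ?_
    rw [Real.volume_Ioo, sub_zero]
  calc (volume (tset ρ n M)).toReal ≤ (ENNReal.ofReal (wid ρ n)).toReal :=
        ENNReal.toReal_mono ENNReal.ofReal_ne_top h1
    _ = wid ρ n := ENNReal.toReal_ofReal (wid_pos hρ n).le

lemma hei_ge : side ρ n / 2 ≤ hei ρ n M := by
  have h0 := side_pos hρ n
  have h1 := (vol_tset_le hρ n M).trans (wid_le' n)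
  unfold hei
  have : (volume (tset ρ n M)).toReal / side ρ n ≤ side ρ n / 2 := by
    rw [div_le_iff₀ h0]; nlinarith
  linarith

lemma hei_ge' : side ρ n - 1 / 2 ≤ hei ρ n M := by
  have h0 := side_pos hρ n
  have h1 := (vol_tset_le hρ n M).trans (wid_le n)
  unfold hei
  have : (volume (tset ρ n M)).toReal / side ρ n ≤ 1 / 2 := by
    rw [div_le_iff₀ h0]; nlinarith
  linarith

lemma hei_pos : 0 < hei ρ n M := by
  have := hei_ge hρ n M
  have := side_pos hρ n
  linarith

lemma hei_le : hei ρ n M ≤ side ρ n := by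
  have h0 := side_pos hρ n
  unfold hei
  have : 0 ≤ (volume (tset ρ n M)).toReal / side ρ n := by positivity
  linarith

omit hρ in
lemma tset_open : IsOpen (tset ρ n M) := isOpen_TT _ _

lemma dom_vol_lt : volume (dom ρ n M) < ⊤ :=
  volume_comb_lt (hei_pos hρ n M) (tset_open n M).measurableSet (teethD hρ n M).TT_subset

lemma dom_vol : (volume (dom ρ n M)).toReal = ((n:ℝ) + 1) / ρ := by
  have h0 := side_pos hρ n
  rw [dom, volume_comb_toReal h0 (hei_pos hρ n M) (tset_open n M).measurableSet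
    (teethD hρ n M).TT_subset, ← side_cube hρ n]
  simp only [hei]
  field_simp
  ring

omit hρ in
lemma dom_open : IsOpen (dom ρ n M) := isOpen_comb (tset_open n M)

lemma dom_conn : IsConnected (dom ρ n M) :=
  comb_connected (side_pos hρ n) (hei_pos hρ n M) (teethD hρ n M)

lemma dom_lip : LipBdry (dom ρ n M) :=
  comb_lip (side_pos hρ n) (hei_pos hρ n M) (teethD hρ n M)

lemma dom_ball : dom ρ n M ⊆ ball 0 (2 * (side ρ n + 1)) :=
  comb_subset_ball (side_pos hρ n) (hei_le hρ n M)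

/-- The energy bound, which does not depend on the number `M` of free teeth. -/
noncomputable def EE (ρ : ℝ) (n : ℕ) : ℝ :=
  ((n:ℝ) + 1) * (20 / 3) / 2 + (((n:ℝ) + 1) ^ 2 / (wid ρ n / (8 * ((n:ℝ) + 1))) +
    ρ ^ 2 / 2 * ((K0 + ((n:ℝ) + 1) / ρ) * (((n:ℝ) + 1) / ρ)))

lemma EE_nonneg : 0 ≤ EE ρ n := by
  have := K0_nonneg
  have := wid_pos hρ n
  unfold EE
  positivity

lemma dom_adm (s : Stat) {m : ℕ} (hm : m ≤ M) :
    Adm s ρ (dom ρ n M) (n + 1) m (EE ρ n) := by
  have hS := (teethD hρ n M).sites (side_pos hρ n) (hei_pos hρ n M) (idx n M) idx_inj idx_cross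
    (dpos (n := n) (wid_pos hρ n)) (fun k a b hab y hy z hz => idx_gap (wid_pos hρ n) k hab hy hz)
  have h1 := (hS.comp (Fin.castLE hm) (Fin.castLE_injective hm)).adm hρ s
  have h2 : Ebd ρ (dom ρ n M) (n + 1) (wid ρ n / (8 * ((n:ℝ) + 1))) (20 / 3) = EE ρ n := by
    unfold Ebd EE
    rw [dom_vol hρ n M]
    push_cast
    ring
  rw [← h2]
  exact h1

end

/-- The number of free teeth. -/
noncomputable def MM (ρ : ℝ) (n : ℕ) : ℕ :=
  ⌈Real.exp (((n:ℝ) + 1) * EE ρ n + ((n:ℝ) + 1) ^ 2)⌉₊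

lemma partition_ge {ρ β : ℝ} (hρ : 0 < ρ) (s : Stat) {n : ℕ}
    (hn : β ≤ (n:ℝ) + 1) :
    ENNReal.ofReal (Real.exp (((n:ℝ) + 1) ^ 2))
      ≤ partitionFn β s ρ (dom ρ n (MM ρ n)) (n + 1) := by
  have hE := EE_nonneg hρ n
  calc ENNReal.ofReal (Real.exp (((n:ℝ) + 1) ^ 2))
      ≤ ENNReal.ofReal ((MM ρ n : ℝ) * Real.exp (-(β * EE ρ n))) := by
        apply ENNReal.ofReal_le_ofReal
        calc Real.exp (((n:ℝ) + 1) ^ 2)
            ≤ Real.exp (((n:ℝ) + 1) * EE ρ n + ((n:ℝ) + 1) ^ 2) * Real.exp (-(β * EE ρ n)) := by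
              rw [← Real.exp_add]
              apply Real.exp_le_exp.2
              nlinarith
          _ ≤ (MM ρ n : ℝ) * Real.exp (-(β * EE ρ n)) := by
              gcongr
              exact Nat.le_ceil _
    _ = ∑ m ∈ Finset.range (MM ρ n), ENNReal.ofReal (Real.exp (-(β * EE ρ n))) := by
        rw [Finset.sum_const, Finset.card_range, nsmul_eq_mul,
          ENNReal.ofReal_mul (Nat.cast_nonneg _), ENNReal.ofReal_natCast]
    _ ≤ ∑ m ∈ Finset.range (MM ρ n), ⨆ (E : ℝ) (_ : Adm s ρ (dom ρ n (MM ρ n)) (n + 1) (m + 1) E),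
          ENNReal.ofReal (Real.exp (-(β * E))) := by
        refine Finset.sum_le_sum fun m hm => ?_
        exact le_iSup₂_of_le (EE ρ n) (dom_adm hρ n (MM ρ n) s (Finset.mem_range.1 hm)) le_rfl
    _ ≤ partitionFn β s ρ (dom ρ n (MM ρ n)) (n + 1) := ENNReal.sum_le_tsum _

lemma gN_ge {ρ β : ℝ} (hρ : 0 < ρ) (s : Stat) {n : ℕ} (hn : β ≤ (n:ℝ) + 1) :
    ((ρ * ((n:ℝ) + 1) : ℝ) : EReal) ≤ gN β s ρ (dom ρ n (MM ρ n)) (n + 1) := by
  have h1 := partition_ge hρ s hn
  have h2 := ENNReal.log_monotone h1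
  rw [ENNReal.log_ofReal_of_pos (Real.exp_pos _), Real.log_exp] at h2
  unfold gN
  rw [dom_vol hρ]
  have h3 : (0 : EReal) ≤ ((((n:ℝ) + 1) / ρ)⁻¹ : ℝ) := by
    exact_mod_cast (by positivity : (0:ℝ) ≤ (((n:ℝ) + 1) / ρ)⁻¹)
  calc ((ρ * ((n:ℝ) + 1) : ℝ) : EReal)
      = ((((n:ℝ) + 1) / ρ)⁻¹ : ℝ) * ((((n:ℝ) + 1) ^ 2 : ℝ) : EReal) := by
        rw [← EReal.coe_mul]
        congr 1
        field_simp
    _ ≤ _ := mul_le_mul_of_nonneg_left h2 h3

/-- The sequence of domains. -/
noncomputable def seq (ρ : ℝ) (j : ℕ) : Set E3 := dom ρ (j - 1) (MM ρ (j - 1))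

lemma seq_tendsto {ρ β : ℝ} (hρ : 0 < ρ) (s : Stat) :
    Tendsto (fun j => gN β s ρ (seq ρ j) j) atTop (𝓝 ⊤) := by
  rw [EReal.tendsto_nhds_top_iff_real]
  intro x
  filter_upwards [eventually_ge_atTop 1, eventually_ge_atTop ⌈β⌉₊,
    eventually_gt_atTop ⌈x / ρ⌉₊] with j h1 h2 h3
  obtain ⟨n, rfl⟩ : ∃ n, j = n + 1 := ⟨j - 1, by omega⟩
  have hβn : β ≤ (n:ℝ) + 1 := by
    have := (Nat.le_ceil β).trans (Nat.cast_le.2 h2)
    push_cast at this
    exact this
  have hx : x < ρ * ((n:ℝ) + 1) := by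
    have h4 : x / ρ < ((n + 1 : ℕ) : ℝ) := (Nat.le_ceil _).trans_lt (Nat.cast_lt.2 h3)
    rw [div_lt_iff₀ hρ] at h4
    push_cast at h4
    linarith
  refine lt_of_lt_of_le (EReal.coe_lt_coe_iff.2 hx) ?_
  simpa [seq] using gN_ge hρ s hβn

lemma side_mono {ρ : ℝ} (hρ : 0 < ρ) (n : ℕ) : side ρ 0 ≤ side ρ n := by
  unfold side
  apply Real.rpow_le_rpow (by positivity) _ (by norm_num)
  gcongr
  simp

lemma side_tendsto {ρ : ℝ} (hρ : 0 < ρ) : Tendsto (fun j : ℕ => side ρ (j - 1)) atTop atTop := by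
  have h1 : Tendsto (fun n : ℕ => side ρ n) atTop atTop := by
    unfold side
    refine (tendsto_rpow_atTop (by norm_num : (0:ℝ) < 1 / 3)).comp ?_
    refine Tendsto.atTop_div_const hρ ?_
    exact tendsto_atTop_add_const_right _ _ tendsto_natCast_atTop_atTop
  exact h1.comp (tendsto_sub_atTop_nat 1)

lemma seq_regular {ρ : ℝ} (hρ : 0 < ρ) : Regular ρ (seq ρ) where
  isOpen := fun j _ => dom_open _ _
  bounded := fun j _ => Metric.isBounded_ball.subset (dom_ball hρ _ _)
  lip := fun j _ => dom_lip hρ _ _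
  neutral := by
    intro j hj
    obtain ⟨n, rfl⟩ : ∃ n, j = n + 1 := ⟨j - 1, by omega⟩
    simp only [seq, dom_vol hρ, Nat.add_sub_cancel]
    push_cast
    field_simp
  thin := by
    intro h hh
    set b := 4 * h + 1 / 2 with hb
    have hlim : Tendsto (fun j : ℕ => 3 * b / side ρ (j - 1)) atTop (𝓝 0) :=
      (side_tendsto hρ).const_div_atTop _
    refine squeeze_zero' (Eventually.of_forall fun j => by positivity) ?_ hlim
    filter_upwards [(side_tendsto hρ).eventually_ge_atTop b] with j hj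
    set n := j - 1 with hn
    have h0 := side_pos hρ n
    have hH := hei_ge' hρ n (MM ρ n)
    have h1 := thin_volume (T := tset ρ n (MM ρ n)) hh (hei_pos hρ n (MM ρ n))
      (tset_open n (MM ρ n)) (teethD hρ n (MM ρ n)).TT_subset (by linarith) (by linarith)
    have e : (volume (seq ρ j)).toReal = side ρ n ^ 3 := by
      rw [seq, dom_vol hρ, side_cube hρ]
    have e' : (volume (comb (side ρ n) (hei ρ n (MM ρ n)) (tset ρ n (MM ρ n)))).toReal
        = side ρ n ^ 3 := e
    rw [e'] at h1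
    rw [e, div_le_div_iff₀ (by positivity) h0]
    have h2 : (side ρ n - b) ^ 3 ≤ (hei ρ n (MM ρ n) - 4 * h) * (side ρ n - 4 * h)
        * (side ρ n - 4 * h) := by
      have a1 : side ρ n - b ≤ hei ρ n (MM ρ n) - 4 * h := by linarith
      have a2 : side ρ n - b ≤ side ρ n - 4 * h := by linarith
      have a0 : 0 ≤ side ρ n - b := by linarith
      calc (side ρ n - b) ^ 3 = (side ρ n - b) * (side ρ n - b) * (side ρ n - b) := by ring
        _ ≤ _ := by
            have a3 : 0 ≤ hei ρ n (MM ρ n) - 4 * h := a0.trans a1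
            have a4 : 0 ≤ side ρ n - 4 * h := a0.trans a2
            exact mul_le_mul (mul_le_mul a1 a2 a0 a3) a2 a0 (mul_nonneg a3 a4)
    have h3 : side ρ n ^ 3 - (side ρ n - b) ^ 3 ≤ 3 * b * side ρ n ^ 2 := by
      have hb0 : 0 < b := by positivity
      nlinarith [mul_nonneg hb0.le (sq_nonneg b), mul_nonneg (mul_nonneg hb0.le hb0.le) h0.le,
        mul_nonneg (mul_nonneg hb0.le hb0.le) (sub_nonneg.2 hj)]
    have h4 : (volume {x | x ∈ seq ρ j ∧ ∃ z ∈ frontier (seq ρ j), dist x z ≤ h}).toReal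
        ≤ 3 * b * side ρ n ^ 2 := by
      refine le_trans h1 ?_
      linarith
    nlinarith
  round := by
    set v := (volume (ball (0 : E3) 1)).toReal with hv
    have hv0 : 0 < v := ENNReal.toReal_pos (measure_ball_pos _ _ one_pos).ne' measure_ball_lt_top.ne
    set A1 := side ρ 0 with hA1
    have hA10 : 0 < A1 := side_pos hρ 0
    set q := 1 + 1 / A1 with hq
    have hq0 : 0 < q := by positivity
    refine ⟨1 / (8 * q ^ 3 * v), by positivity, fun j hj => ⟨0, 2 * (side ρ (j - 1) + 1),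
      dom_ball hρ _ _, ?_⟩⟩
    set A := side ρ (j - 1) with hA
    have hA0 : 0 < A := side_pos hρ _
    have hAA : A1 ≤ A := side_mono hρ _
    have e : (volume (seq ρ j)).toReal = A ^ 3 := by
      rw [seq, dom_vol hρ, side_cube hρ]
    have e2 : (volume (ball (0 : E3) (2 * (A + 1)))).toReal = (2 * (A + 1)) ^ 3 * v := by
      rw [Measure.addHaar_ball _ _ (by positivity), ENNReal.toReal_mul,
        ENNReal.toReal_ofReal (by positivity)]
      simp [E3, hv]
    have h1 : A + 1 ≤ A * q := by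
      have : 1 ≤ A * (1 / A1) := by
        rw [mul_one_div, one_le_div hA10]; exact hAA
      rw [hq]; linarith
    rw [e, e2]
    have h2 : (2 * (A + 1)) ^ 3 ≤ 8 * q ^ 3 * A ^ 3 := by
      calc (2 * (A + 1)) ^ 3 ≤ (2 * (A * q)) ^ 3 := by gcongr
        _ = 8 * q ^ 3 * A ^ 3 := by ring
    calc 1 / (8 * q ^ 3 * v) * ((2 * (A + 1)) ^ 3 * v)
        ≤ 1 / (8 * q ^ 3 * v) * ((8 * q ^ 3 * A ^ 3) * v) := by gcongr
      _ = A ^ 3 := by field_simp

/-- **Main theorem.** -/
theorem main (ρ : ℝ) (hρ : 0 < ρ) :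
    ∃ Λ : ℕ → Set E3, Regular ρ Λ ∧ (∀ j, 1 ≤ j → IsConnected (Λ j)) ∧
      ∀ β : ℝ, 0 < β → ∀ s : Stat, Tendsto (fun j => gN β s ρ (Λ j) j) atTop (𝓝 ⊤) :=
  ⟨seq ρ, seq_regular hρ, fun _ _ => dom_conn hρ _ _, fun _ _ s => seq_tendsto hρ s⟩

end Pool.Agent.R745.Jel
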