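import Pool.Agent.R745.Jel.Defs

open MeasureTheory Metric Filter Topology Set

namespace Pool.Agent.R745.Jel

/-- The Coulomb integral over the unit ball. -/
noncomputable def K0 : ℝ := ∫ z in ball (0 : E3) 1, ‖z‖⁻¹

lemma integrableOn_inv_norm : IntegrableOn (fun z : E3 => ‖z‖⁻¹) (ball 0 1) := by
  have h := (integrableOn_fun_norm_addHaar (E := E3) (volume : Measure E3)
    (f := fun t : ℝ => t⁻¹) (r := 1)).2
  apply h
  have hd : Module.finrank ℝ E3 = 3 := by simp [E3]
  rw [hd]
  have : IntegrableOn (fun y : ℝ => y) (Ioo 0 1) :=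
    (continuous_id.integrableOn_Icc (a := (0:ℝ)) (b := 1)).mono_set Ioo_subset_Icc_self
  refine this.congr_fun ?_ measurableSet_Ioo
  intro y hy
  have : y ≠ 0 := ne_of_gt hy.1
  simp only [smul_eq_mul]
  field_simp

lemma K0_nonneg : 0 ≤ K0 := integral_nonneg fun _ => by positivity

lemma integrable_ind (x : E3) :
    Integrable (fun y : E3 => (ball x 1).indicator (fun y => ‖x - y‖⁻¹) y) := by
  have h0 : Integrable (fun z : E3 => (ball (0:E3) 1).indicator (fun z => ‖z‖⁻¹) z) :=
    (integrable_indicator_iff measurableSet_ball).2 integrableOn_inv_norm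
  have h1 := h0.comp_sub_left x
  refine h1.congr (Eventually.of_forall fun y => ?_)
  simp only [indicator, mem_ball, dist_zero_right]
  congr 1
  rw [dist_comm, dist_eq_norm]

lemma integral_ind (x : E3) :
    ∫ y : E3, (ball x 1).indicator (fun y => ‖x - y‖⁻¹) y = K0 := by
  have h1 : ∫ y : E3, (ball x 1).indicator (fun y => ‖x - y‖⁻¹) y
      = ∫ y : E3, (fun z : E3 => (ball (0:E3) 1).indicator (fun z => ‖z‖⁻¹) z) (x - y) := by
    refine integral_congr_ae (Eventually.of_forall fun y => ?_)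
    simp only [indicator, mem_ball, dist_zero_right]
    congr 1
    rw [dist_comm, dist_eq_norm]
  rw [h1, integral_sub_left_eq_self (fun z : E3 => (ball (0:E3) 1).indicator (fun z => ‖z‖⁻¹) z),
    integral_indicator measurableSet_ball, K0]

lemma inv_norm_le (x y : E3) :
    ‖x - y‖⁻¹ ≤ (ball x 1).indicator (fun y => ‖x - y‖⁻¹) y + 1 := by
  by_cases h : y ∈ ball x 1
  · rw [indicator_of_mem h]; linarith
  · rw [indicator_of_notMem h, zero_add]
    rw [mem_ball, not_lt, dist_comm, dist_eq_norm] at h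
    exact inv_le_one_of_one_le₀ h

lemma integrableOn_inv {Λ : Set E3} (hf : volume Λ < ⊤) (x : E3) :
    IntegrableOn (fun y : E3 => ‖x - y‖⁻¹) Λ := by
  have h1 : IntegrableOn (fun y : E3 =>
      (ball x 1).indicator (fun y => ‖x - y‖⁻¹) y + 1) Λ :=
    (integrable_ind x).integrableOn.add (integrableOn_const hf.ne)
  refine Integrable.mono' h1 ?_ (Eventually.of_forall fun y => ?_)
  · exact (Measurable.aestronglyMeasurable (by fun_prop))
  · rw [Real.norm_of_nonneg (by positivity)]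
    exact inv_norm_le x y

lemma phi_nonneg (Λ : Set E3) (x : E3) : 0 ≤ phi Λ x := integral_nonneg fun _ => by positivity

lemma phi_le {Λ : Set E3} (hf : volume Λ < ⊤) (x : E3) : phi Λ x ≤ K0 + (volume Λ).toReal := by
  have h1 : IntegrableOn (fun y : E3 =>
      (ball x 1).indicator (fun y => ‖x - y‖⁻¹) y + 1) Λ :=
    (integrable_ind x).integrableOn.add (integrableOn_const hf.ne)
  calc phi Λ x ≤ ∫ y in Λ, ((ball x 1).indicator (fun y => ‖x - y‖⁻¹) y + 1) :=
        integral_mono (integrableOn_inv hf x) h1 (fun y => inv_norm_le x y)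
    _ = (∫ y in Λ, (ball x 1).indicator (fun y => ‖x - y‖⁻¹) y) + (volume Λ).toReal := by
        rw [integral_add (integrable_ind x).integrableOn (integrableOn_const hf.ne)]
        simp [Measure.real]
    _ ≤ K0 + (volume Λ).toReal := by
        gcongr
        rw [← integral_ind x]
        exact setIntegral_le_integral (integrable_ind x)
          (Eventually.of_forall fun y => indicator_nonneg (fun _ _ => by positivity) y)

lemma measurable_phi (Λ : Set E3) : Measurable (phi Λ) := by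
  have : StronglyMeasurable (fun p : E3 × E3 => ‖p.1 - p.2‖⁻¹) :=
    Measurable.stronglyMeasurable (by fun_prop)
  exact (this.integral_prod_right (ν := volume.restrict Λ)).measurable

lemma int_phi_nonneg (Λ : Set E3) : 0 ≤ ∫ y in Λ, phi Λ y :=
  integral_nonneg fun _ => phi_nonneg _ _

lemma int_phi_le {Λ : Set E3} (hf : volume Λ < ⊤) :
    ∫ y in Λ, phi Λ y ≤ (K0 + (volume Λ).toReal) * (volume Λ).toReal := by
  have hint : IntegrableOn (phi Λ) Λ := by
    refine Measure.integrableOn_of_bounded (M := K0 + (volume Λ).toReal) hf.ne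
      (measurable_phi Λ).aestronglyMeasurable (Eventually.of_forall fun y => ?_)
    rw [Real.norm_of_nonneg (phi_nonneg _ _)]
    exact phi_le hf y
  calc ∫ y in Λ, phi Λ y ≤ ∫ y in Λ, (K0 + (volume Λ).toReal) :=
        integral_mono hint (integrableOn_const hf.ne) (fun y => phi_le hf y)
    _ = _ := by simp [Measure.real, mul_comm]

lemma measurable_pot (ρ : ℝ) (Λ : Set E3) (N : ℕ) : Measurable (pot ρ Λ N) := by
  unfold pot
  have := measurable_phi Λ
  fun_prop

/-- Upper bound of the potential energy. -/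
lemma pot_le {ρ : ℝ} (hρ : 0 < ρ) {Λ : Set E3} (hf : volume Λ < ⊤) {N : ℕ} {d : ℝ} (hd : 0 < d)
    {x : Conf N} (hx : ∀ i j, i ≠ j → d ≤ ‖x i - x j‖) :
    pot ρ Λ N x ≤ N ^ 2 / d + ρ ^ 2 / 2 * ((K0 + (volume Λ).toReal) * (volume Λ).toReal) := by
  unfold pot
  have h1 : (∑ i, ∑ j ∈ Finset.Ioi i, ‖x i - x j‖⁻¹) ≤ N ^ 2 / d := by
    calc (∑ i, ∑ j ∈ Finset.Ioi i, ‖x i - x j‖⁻¹) ≤ ∑ i : Fin N, ∑ j ∈ Finset.Ioi i, d⁻¹ := by
          refine Finset.sum_le_sum fun i _ => Finset.sum_le_sum fun j hj => ?_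
          exact inv_anti₀ hd (hx i j (ne_of_lt (Finset.mem_Ioi.1 hj)))
      _ ≤ ∑ i : Fin N, ∑ j : Fin N, d⁻¹ := by
          refine Finset.sum_le_sum fun i _ => ?_
          exact Finset.sum_le_sum_of_subset_of_nonneg (Finset.subset_univ _)
            (fun _ _ _ => by positivity)
      _ = N ^ 2 / d := by simp; field_simp
  have h2 : 0 ≤ ρ * ∑ i, phi Λ (x i) :=
    mul_nonneg hρ.le (Finset.sum_nonneg fun i _ => phi_nonneg _ _)
  have h3 := int_phi_le hf
  have h4 : ρ ^ 2 / 2 * ∫ y in Λ, phi Λ y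
      ≤ ρ ^ 2 / 2 * ((K0 + (volume Λ).toReal) * (volume Λ).toReal) := by gcongr
  linarith

/-- Lower bound of the potential energy. -/
lemma le_pot {ρ : ℝ} (hρ : 0 < ρ) {Λ : Set E3} (hf : volume Λ < ⊤) {N : ℕ} (x : Conf N) :
    -(ρ * (N * (K0 + (volume Λ).toReal))) ≤ pot ρ Λ N x := by
  unfold pot
  have h1 : 0 ≤ (∑ i, ∑ j ∈ Finset.Ioi i, ‖x i - x j‖⁻¹) :=
    Finset.sum_nonneg fun i _ => Finset.sum_nonneg fun j _ => by positivity
  have h2 : ∑ i, phi Λ (x i) ≤ N * (K0 + (volume Λ).toReal) := by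
    calc ∑ i, phi Λ (x i) ≤ ∑ i : Fin N, (K0 + (volume Λ).toReal) :=
          Finset.sum_le_sum fun i _ => phi_le hf _
      _ = _ := by simp; ring
  have h3 : ρ * ∑ i, phi Λ (x i) ≤ ρ * (N * (K0 + (volume Λ).toReal)) := by gcongr
  have h4 : 0 ≤ ρ ^ 2 / 2 * ∫ y in Λ, phi Λ y := by
    have := int_phi_nonneg Λ
    positivity
  linarith

end Pool.Agent.R745.Jel
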