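import Pool.Agent.R745.Jel.Test

open MeasureTheory Metric Filter Topology Set

namespace Pool.Agent.R745.Jel

/-- The one-dimensional profile `(t⁺)²`. -/
noncomputable def pr (t : ℝ) : ℝ := (max t 0) ^ 2

lemma hasDerivAt_pr (t : ℝ) : HasDerivAt pr (2 * max t 0) t := by
  rcases lt_trichotomy t 0 with h | h | h
  · have h1 : pr =ᶠ[𝓝 t] fun _ => (0:ℝ) := by
      filter_upwards [gt_mem_nhds h] with u hu
      simp [pr, max_eq_right hu.le]
    rw [max_eq_right h.le, mul_zero]
    exact (hasDerivAt_const t (0:ℝ)).congr_of_eventuallyEq h1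
  · subst h
    rw [max_self, mul_zero, hasDerivAt_iff_isLittleO]
    have : (fun x' : ℝ => pr x' - pr 0 - (x' - 0) • (0:ℝ)) = fun x' => pr x' := by
      ext u; simp [pr]
    rw [this]
    have h2 : (fun x' : ℝ => pr x') =O[𝓝 0] fun x' : ℝ => x' ^ 2 := by
      refine Asymptotics.IsBigO.of_bound 1 (Eventually.of_forall fun u => ?_)
      rw [one_mul, Real.norm_of_nonneg (by unfold pr; positivity),
        Real.norm_of_nonneg (by positivity)]
      unfold pr
      rcases le_total u 0 with hu | hu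
      · rw [max_eq_right hu]; nlinarith [sq_nonneg u]
      · rw [max_eq_left hu]
    refine h2.trans_isLittleO ?_
    have h3 : (fun x' : ℝ => x' ^ 2) =o[𝓝 0] fun x' : ℝ => x' ^ 1 :=
      Asymptotics.isLittleO_pow_pow (by norm_num)
    simpa using h3
  · have h1 : pr =ᶠ[𝓝 t] fun u => u ^ 2 := by
      filter_upwards [lt_mem_nhds h] with u hu
      simp [pr, max_eq_left hu.le]
    rw [max_eq_left h.le]
    have := (hasDerivAt_pow 2 t).congr_of_eventuallyEq h1
    simpa using this

/-- Profile function on `ℝ³`: `((y₀ - H)⁺)²`. -/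
noncomputable def pf (H : ℝ) (y : E3) : ℝ := pr (y 0 - H)

/-- Its derivative in the direction of the first coordinate. -/
noncomputable def dpf (H : ℝ) (y : E3) : ℝ := 2 * max (y 0 - H) 0

lemma pf_nonneg (H : ℝ) (y : E3) : 0 ≤ pf H y := by unfold pf pr; positivity

lemma dpf_nonneg (H : ℝ) (y : E3) : 0 ≤ dpf H y := by unfold dpf; positivity

lemma pf_pos {H : ℝ} {y : E3} (hy : H < y 0) : 0 < pf H y := by
  unfold pf pr
  have : 0 < max (y 0 - H) 0 := lt_max_of_lt_left (by linarith)
  positivity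

lemma pf_le {H : ℝ} {y : E3} (hy : y 0 < H + 1) : pf H y ≤ 2 := by
  unfold pf pr
  have h1 : max (y 0 - H) 0 ≤ 1 := max_le (by linarith) zero_le_one
  have h0 : 0 ≤ max (y 0 - H) 0 := le_max_right _ _
  nlinarith

lemma dpf_le {H : ℝ} {y : E3} (hy : y 0 < H + 1) : dpf H y ≤ 2 := by
  unfold dpf
  have h1 : max (y 0 - H) 0 ≤ 1 := max_le (by linarith) zero_le_one
  linarith

lemma measurable_pf (H : ℝ) : Measurable (pf H) := by
  unfold pf pr; fun_prop

lemma measurable_dpf (H : ℝ) : Measurable (dpf H) := by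
  unfold dpf; fun_prop

/-- coordinate functional -/
noncomputable def coo : E3 →L[ℝ] ℝ := EuclideanSpace.proj (0 : Fin 3)

@[simp] lemma coo_apply (y : E3) : coo y = y 0 := rfl

lemma hasFDerivAt_pf (H : ℝ) (y : E3) : HasFDerivAt (pf H) (dpf H y • coo) y := by
  have h1 : HasFDerivAt (fun y : E3 => y 0 - H) coo y := coo.hasFDerivAt.sub_const H
  have h2 := (hasDerivAt_pr (y 0 - H)).comp_hasFDerivAt y h1
  exact h2

variable {N : ℕ}

/-- Product profile. -/
noncomputable def PP (H : ℝ) (x : Conf N) : ℝ := ∏ l, pf H (x l)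

/-- Product profile with the `i`-th factor differentiated. -/
noncomputable def DP (H : ℝ) (i : Fin N) (x : Conf N) : ℝ :=
  ∏ l, (if l = i then dpf H (x l) else pf H (x l))

/-- The derivative of the product profile. -/
noncomputable def LP (H : ℝ) (x : Conf N) : Conf N →L[ℝ] ℝ :=
  ∑ l, (∏ j ∈ Finset.univ.erase l, pf H (x j)) •
    ((dpf H (x l) • coo).comp (ContinuousLinearMap.proj (R := ℝ) (φ := fun _ : Fin N => E3) l))

lemma hasFDerivAt_PP (H : ℝ) (x : Conf N) : HasFDerivAt (PP H) (LP H x) x := by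
  have h1 : ∀ l : Fin N, HasFDerivAt (fun x : Conf N => pf H (x l))
      ((dpf H (x l) • coo).comp (ContinuousLinearMap.proj l)) x := fun l =>
    (hasFDerivAt_pf H (x l)).comp x (f := fun x : Conf N => x l) (hasFDerivAt_apply l x)
  exact HasFDerivAt.finsetProd (u := Finset.univ) (fun l _ => h1 l)

lemma LP_dir (H : ℝ) (x : Conf N) (i : Fin N) (α : Fin 3) :
    LP H x (dir i α) = if α = 0 then DP H i x else 0 := by
  simp only [LP, sum_apply, smul_apply,
    ContinuousLinearMap.comp_apply, ContinuousLinearMap.proj_apply, coo_apply, dir, smul_eq_mul]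
  rw [Finset.sum_eq_single i]
  · rw [Pi.single_eq_same]
    by_cases hα : α = 0
    · subst hα
      simp only [PiLp.single_apply, if_true, mul_one, DP]
      rw [← Finset.mul_prod_erase Finset.univ _ (Finset.mem_univ i), if_pos rfl, mul_comm]
      congr 1
      refine Finset.prod_congr rfl fun l hl => ?_
      rw [if_neg (Finset.ne_of_mem_erase hl)]
    · simp [hα, Ne.symm hα]
  · intro l _ hl
    rw [Pi.single_eq_of_ne hl]
    simp
  · intro h; exact absurd (Finset.mem_univ i) h

lemma pf_zero {H : ℝ} {y : E3} (hy : y 0 ≤ H) : pf H y = 0 := by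
  unfold pf pr
  rw [max_eq_right (by linarith)]; simp

lemma dpf_zero {H : ℝ} {y : E3} (hy : y 0 ≤ H) : dpf H y = 0 := by
  unfold dpf
  rw [max_eq_right (by linarith)]; simp

lemma LP_zero {H : ℝ} {x : Conf N} {i : Fin N} (hi : x i 0 ≤ H) : LP H x = 0 := by
  unfold LP
  refine Finset.sum_eq_zero fun l _ => ?_
  by_cases hl : l = i
  · subst hl
    rw [dpf_zero hi]; simp
  · rw [Finset.prod_eq_zero (Finset.mem_erase.2 ⟨Ne.symm hl, Finset.mem_univ i⟩) (pf_zero hi)]
    simp

lemma PP_zero {H : ℝ} {x : Conf N} {i : Fin N} (hi : x i 0 ≤ H) : PP H x = 0 :=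
  Finset.prod_eq_zero (Finset.mem_univ i) (pf_zero hi)

lemma PP_nonneg (H : ℝ) (x : Conf N) : 0 ≤ PP H x :=
  Finset.prod_nonneg fun l _ => pf_nonneg H _

lemma DP_nonneg (H : ℝ) (i : Fin N) (x : Conf N) : 0 ≤ DP H i x :=
  Finset.prod_nonneg fun l _ => by split_ifs; exacts [dpf_nonneg H _, pf_nonneg H _]

lemma PP_le {H : ℝ} {x : Conf N} (hx : ∀ l, x l 0 < H + 1) : PP H x ≤ 2 ^ N := by
  unfold PP
  calc ∏ l, pf H (x l) ≤ ∏ l : Fin N, (2:ℝ) :=
        Finset.prod_le_prod (fun l _ => pf_nonneg H _) fun l _ => pf_le (hx l)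
    _ = 2 ^ N := by simp

lemma DP_le {H : ℝ} {i : Fin N} {x : Conf N} (hx : ∀ l, x l 0 < H + 1) : DP H i x ≤ 2 ^ N := by
  unfold DP
  calc ∏ l, (if l = i then dpf H (x l) else pf H (x l)) ≤ ∏ l : Fin N, (2:ℝ) :=
        Finset.prod_le_prod (fun l _ => by split_ifs; exacts [dpf_nonneg H _, pf_nonneg H _])
          fun l _ => by split_ifs; exacts [dpf_le (hx l), pf_le (hx l)]
    _ = 2 ^ N := by simp

lemma measurable_PP (H : ℝ) : Measurable (PP H : Conf N → ℝ) :=
  Finset.measurable_prod _ fun l _ => (measurable_pf H).comp (measurable_pi_apply l)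

lemma measurable_DP (H : ℝ) (i : Fin N) : Measurable (DP H i : Conf N → ℝ) := by
  refine Finset.measurable_prod _ fun l _ => ?_
  by_cases h : l = i
  · simp only [h, if_true]; exact (measurable_dpf H).comp (measurable_pi_apply i)
  · simp only [h, if_false]; exact (measurable_pf H).comp (measurable_pi_apply l)

end Pool.Agent.R745.Jel
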