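import Pool.Agent.R745.Jel.Pot

open MeasureTheory Metric Filter Topology Set

namespace Pool.Agent.R745.Jel

section weak
variable {V : Type*} [NormedAddCommGroup V] [NormedSpace ℝ V] [FiniteDimensional ℝ V]
  [MeasurableSpace V] [BorelSpace V] {μ : Measure V} [μ.IsAddHaarMeasure]

/-- Integration by parts: a function which is differentiable on the open set `O` has the
classical derivative as weak derivative. -/
lemma weak_of_deriv {O : Set V} {f G : V → ℂ} {v : V}
    (hf : ∀ x ∈ O, DifferentiableAt ℝ f x) (hG : ∀ x ∈ O, fderiv ℝ f x v = G x)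
    (hfm : Measurable f) (hGm : Measurable G) {B : ℝ} (hfB : ∀ x, ‖f x‖ ≤ B)
    (hGB : ∀ x, ‖G x‖ ≤ B)
    {φ : V → ℝ} (hφ : ContDiff ℝ (⊤ : ℕ∞) φ) (hc : HasCompactSupport φ) (hs : tsupport φ ⊆ O) :
    ∫ x in O, ((fderiv ℝ φ x v : ℝ) : ℂ) * f x ∂μ = - ∫ x in O, ((φ x : ℝ) : ℂ) * G x ∂μ := by
  set g : V → ℂ := fun x => ((φ x : ℝ) : ℂ) with hg
  have hφd : Differentiable ℝ φ := hφ.differentiable (by simp)
  have hgd : ∀ x, HasFDerivAt g (Complex.ofRealCLM.comp (fderiv ℝ φ x)) x := fun x =>
    Complex.ofRealCLM.hasFDerivAt.comp x (hφd x).hasFDerivAt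
  have hgv : ∀ x, fderiv ℝ g x v = ((fderiv ℝ φ x v : ℝ) : ℂ) := fun x => by
    rw [(hgd x).fderiv]; simp
  have hts : tsupport g ⊆ tsupport φ := by
    apply closure_mono
    intro x hx
    simp only [hg, Function.mem_support] at hx ⊢
    exact fun h => hx (by simp [h])
  have heq : ∀ x, fderiv ℝ f x v * g x = G x * g x := by
    intro x
    by_cases hx : x ∈ tsupport φ
    · rw [hG x (hs hx)]
    · have : φ x = 0 := image_eq_zero_of_notMem_tsupport hx
      simp [hg, this]
  have hBi : ∀ (F : V → ℂ) (h : V → ℝ), Measurable F → (∀ x, ‖F x‖ ≤ B) → Continuous h →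
      HasCompactSupport h → Integrable (fun x => F x * ((h x : ℝ) : ℂ)) μ := by
    intro F h hF hFB hc hcs
    have h1 : Integrable (fun x => ((h x : ℝ) : ℂ)) μ :=
      (hc.integrable_of_hasCompactSupport hcs).ofReal
    exact h1.bdd_mul hF.aestronglyMeasurable (Eventually.of_forall hFB)
  have key := integral_mul_fderiv_eq_neg_fderiv_mul_of_integrable (μ := μ) (f := f) (g := g)
    (v := v) (by simp only [heq]; exact hBi _ _ hGm hGB hφ.continuous hc)
    (by
      simp only [hgv]
      exact hBi _ _ hfm hfB ((hφ.continuous_fderiv (by simp)).clm_apply continuous_const)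
        (hc.fderiv_apply ℝ v))
    (hBi _ _ hfm hfB hφ.continuous hc)
    (fun x hx => hf x (hs (hts hx)))
    (fun x _ => (hgd x).differentiableAt)
  simp only [heq, hgv] at key
  rw [setIntegral_eq_integral_of_forall_compl_eq_zero,
    setIntegral_eq_integral_of_forall_compl_eq_zero]
  · calc ∫ x, ((fderiv ℝ φ x v : ℝ) : ℂ) * f x ∂μ = ∫ x, f x * ((fderiv ℝ φ x v : ℝ) : ℂ) ∂μ :=
          integral_congr_ae (Eventually.of_forall fun x => mul_comm _ _)
      _ = - ∫ x, G x * g x ∂μ := key
      _ = _ := by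
          rw [neg_inj]
          exact integral_congr_ae (Eventually.of_forall fun x => mul_comm _ _)
  · intro x hx
    have hx' : x ∉ tsupport φ := fun h => hx (hs h)
    have : φ x = 0 := image_eq_zero_of_notMem_tsupport hx'
    simp [this]
  · intro x hx
    have hx' : x ∉ tsupport φ := fun h => hx (hs h)
    have : fderiv ℝ φ x = 0 := by
      have h1 : φ =ᶠ[𝓝 x] fun _ => (0:ℝ) := by
        rw [notMem_tsupport_iff_eventuallyEq] at hx'
        exact hx'
      rw [h1.fderiv_eq]; simp
    simp [this]

end weak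

variable {N : ℕ}

/-- Matrix `(1_{S a}(x i))_{i,a}`. -/
noncomputable def mat (S : Fin N → Set E3) (x : Conf N) : Matrix (Fin N) (Fin N) ℂ :=
  Matrix.of fun i a => (S a).indicator (fun _ => (1 : ℂ)) (x i)

/-- The test function: Slater determinant of indicator functions (its square for bosons). -/
noncomputable def psi (s : Stat) (S : Fin N → Set E3) (x : Conf N) : ℂ :=
  match s with
  | .bose => (mat S x).det ^ 2
  | .fermi => (mat S x).det

lemma mat_perm (S : Fin N → Set E3) (x : Conf N) (σ : Equiv.Perm (Fin N)) :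
    mat S (fun i => x (σ i)) = (mat S x).submatrix σ id := by
  ext i a
  simp [mat]

lemma psi_perm (s : Stat) (S : Fin N → Set E3) (x : Conf N) (σ : Equiv.Perm (Fin N)) :
    psi s S (fun i => x (σ i)) = s.chi σ * psi s S x := by
  have h : (mat S (fun i => x (σ i))).det = ((Equiv.Perm.sign σ : ℤˣ) : ℤ) * (mat S x).det := by
    rw [mat_perm, Matrix.det_permute]
  cases s with
  | fermi => simpa [psi, Stat.chi] using h
  | bose =>
    simp only [psi, Stat.chi, h, one_mul, mul_pow]
    rcases Int.units_eq_one_or (Equiv.Perm.sign σ) with h1 | h1 <;> simp [h1]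

lemma norm_chi (s : Stat) (σ : Equiv.Perm (Fin N)) : ‖s.chi σ‖ = 1 := by
  cases s with
  | bose => simp [Stat.chi]
  | fermi =>
    rcases Int.units_eq_one_or (Equiv.Perm.sign σ) with h1 | h1 <;> simp [Stat.chi, h1]

/-- On `S 0 × ⋯ × S (N-1)` the test function is one. -/
lemma psi_one (s : Stat) {S : Fin N → Set E3} (hS : ∀ a b, a ≠ b → Disjoint (S a) (S b))
    {x : Conf N} (hx : ∀ i, x i ∈ S i) : psi s S x = 1 := by
  have h : mat S x = 1 := by
    ext i a
    by_cases hia : i = a
    · subst hia; simp [mat, hx i]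
    · have : x i ∉ S a := fun h => (Set.disjoint_left.1 (hS i a hia)) (hx i) h
      simp [mat, this, Matrix.one_apply_ne hia]
  cases s <;> simp [psi, h]

/-- Where the test function does not vanish there is exactly one particle in each site. -/
lemma psi_ne (s : Stat) {S : Fin N → Set E3} {x : Conf N} (hx : psi s S x ≠ 0) :
    ∃ σ : Equiv.Perm (Fin N), ∀ i, x (σ i) ∈ S i := by
  have h : (mat S x).det ≠ 0 := by
    cases s with
    | bose => intro h; apply hx; simp [psi, h]
    | fermi => exact hx
  rw [Matrix.det_apply] at h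
  obtain ⟨σ, -, hσ⟩ := Finset.exists_ne_zero_of_sum_ne_zero h
  refine ⟨σ, fun i => ?_⟩
  by_contra hi
  apply hσ
  have : ∏ i, mat S x (σ i) i = 0 :=
    Finset.prod_eq_zero (Finset.mem_univ i) (by simp [mat, hi])
  rw [this, smul_zero]

lemma norm_psi_le (s : Stat) {S : Fin N → Set E3} (hS : ∀ a b, a ≠ b → Disjoint (S a) (S b))
    (x : Conf N) : ‖psi s S x‖ ≤ 1 := by
  by_cases hx : psi s S x = 0
  · simp [hx]
  · obtain ⟨σ, hσ⟩ := psi_ne s hx
    have h1 := psi_one s hS hσ
    rw [psi_perm] at h1
    have h2 : ‖s.chi σ‖ * ‖psi s S x‖ = 1 := by rw [← norm_mul, h1, norm_one]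
    rw [norm_chi, one_mul] at h2
    exact h2.le

lemma measurable_psi (s : Stat) {S : Fin N → Set E3} (hS : ∀ a, MeasurableSet (S a)) :
    Measurable (psi s S) := by
  have h : Measurable fun x : Conf N => (mat S x).det := by
    simp only [Matrix.det_apply']
    refine Finset.measurable_sum _ fun σ _ => ?_
    refine Measurable.const_mul ?_ _
    refine Finset.measurable_prod _ fun i _ => ?_
    simp only [mat, Matrix.of_apply]
    exact (measurable_const.indicator (hS i)).comp (measurable_pi_apply (σ i))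
  cases s with
  | bose => exact h.pow_const 2
  | fermi => exact h

/-- If the sites are relatively clopen in `Λ`, the test function is locally constant on `Λ^N`. -/
lemma psi_locconst (s : Stat) {Λ : Set E3} {S : Fin N → Set E3} (hS : ∀ a, IsOpen (S a))
    (hS' : ∀ a, IsOpen (Λ \ S a)) {x : Conf N} (hx : x ∈ box Λ N) :
    ∀ᶠ y in 𝓝 x, psi s S y = psi s S x := by
  have h : ∀ᶠ y in 𝓝 x, mat S y = mat S x := by
    have h1 : ∀ i a, ∀ᶠ y : Conf N in 𝓝 x, mat S y i a = mat S x i a := by
      intro i a
      have hc : Tendsto (fun y : Conf N => y i) (𝓝 x) (𝓝 (x i)) :=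
        (continuous_apply i).continuousAt
      by_cases hi : x i ∈ S a
      · filter_upwards [hc.eventually ((hS a).mem_nhds hi)] with y hy
        have hy' : y i ∈ S a := hy
        simp [mat, hy', hi]
      · have hxi : x i ∈ Λ \ S a := ⟨hx i (mem_univ i), hi⟩
        filter_upwards [hc.eventually ((hS' a).mem_nhds hxi)] with y hy
        simp [mat, hy.2, hi]
    filter_upwards [Filter.eventually_all.2 fun i => Filter.eventually_all.2 fun a => h1 i a]
      with y hy
    ext i a
    exact hy i a
  filter_upwards [h] with y hy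
  cases s <;> simp [psi, hy]

end Pool.Agent.R745.Jel
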